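import Mathlib

/-!
# A sequence on the circle with Poissonian pair correlations

For almost all `(u, v, w)` in the three-dimensional torus the sequence `n u + n^2 v + n^3 w`
has Poissonian pair correlations.
-/

set_option autoImplicit false

namespace Pool.Agent.H91.PPCExist

open MeasureTheory ProbabilityTheory Filter Topology Finset

/-- number of ordered pairs `k ≠ l` of indices below `N` with `‖x k - x l‖ < δ`. -/
noncomputable def cpT (x : ℕ → UnitAddCircle) (N : ℕ) (δ : ℝ) : ℕ :=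
  ((range N ×ˢ range N).filter (fun p => p.1 ≠ p.2 ∧ ‖x p.1 - x p.2‖ < δ)).card

/-- Poissonian pair correlations for a sequence on the circle. -/
def PPCT (x : ℕ → UnitAddCircle) : Prop :=
  ∀ s : ℝ, 0 < s → Tendsto (fun N : ℕ => (cpT x N (s / N) : ℝ) / N) atTop (𝓝 (2 * s))

lemma cpT_mono (x : ℕ → UnitAddCircle) {N N' : ℕ} {δ δ' : ℝ} (hN : N ≤ N') (hδ : δ ≤ δ') :
    cpT x N δ ≤ cpT x N' δ' := by
  unfold cpT
  apply Finset.card_le_card
  intro p hp
  simp only [Finset.mem_filter, Finset.mem_product, Finset.mem_range] at hp ⊢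
  exact ⟨⟨by omega, by omega⟩, hp.2.1, hp.2.2.trans_le hδ⟩

/-! ### From squares to all `N` -/

lemma sqrt_tendsto : Tendsto Nat.sqrt atTop atTop := by
  refine tendsto_atTop.2 fun b => ?_
  filter_upwards [eventually_ge_atTop (b * b)] with N hN
  exact Nat.le_sqrt.mpr hN

/-- If the pair correlation counts are right along squares and rational `s`, they are right. -/
lemma ppc_of_squares (x : ℕ → UnitAddCircle)
    (h : ∀ s : ℚ, 0 < s → Tendsto (fun m : ℕ => (cpT x (m ^ 2) (s / (m : ℝ) ^ 2) : ℝ) / (m : ℝ) ^ 2)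
      atTop (𝓝 (2 * s))) : PPCT x := by
  intro s hs
  rw [tendsto_order]
  have hratio : Tendsto (fun m : ℕ => ((m : ℝ) + 1) ^ 2 / (m : ℝ) ^ 2) atTop (𝓝 1) := by
    have h1 : Tendsto (fun m : ℕ => (1 + 1 / (m : ℝ)) ^ 2) atTop (𝓝 ((1 + 0) ^ 2)) :=
      (tendsto_const_nhds.add tendsto_one_div_atTop_nhds_zero_nat).pow 2
    simp only [add_zero, one_pow] at h1
    refine h1.congr' ?_
    filter_upwards [eventually_gt_atTop 0] with m hm
    have : (m : ℝ) ≠ 0 := by positivity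
    field_simp
  have hratio' : Tendsto (fun m : ℕ => (m : ℝ) ^ 2 / ((m : ℝ) + 1) ^ 2) atTop (𝓝 1) := by
    have h1 := hratio.inv₀ one_ne_zero
    rw [inv_one] at h1
    refine h1.congr fun m => ?_
    rw [inv_div]
  constructor
  · -- lower bound
    intro b hb
    obtain ⟨q, hq1, hq2⟩ : ∃ q : ℚ, max 0 (b / 2) < (q : ℝ) ∧ (q : ℝ) < s :=
      exists_rat_btwn (by rw [max_lt_iff]; exact ⟨hs, by linarith⟩)
    rw [max_lt_iff] at hq1
    have hq0 : (0 : ℚ) < q := by exact_mod_cast hq1.1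
    have h1 : Tendsto (fun m : ℕ => (cpT x (m ^ 2) (q / (m : ℝ) ^ 2) : ℝ) / (m : ℝ) ^ 2 *
        ((m : ℝ) ^ 2 / ((m : ℝ) + 1) ^ 2)) atTop (𝓝 (2 * (q : ℝ) * 1)) := (h q hq0).mul hratio'
    have h2 : ∀ᶠ m : ℕ in atTop, b < (cpT x (m ^ 2) (q / (m : ℝ) ^ 2) : ℝ) / (m : ℝ) ^ 2 *
        ((m : ℝ) ^ 2 / ((m : ℝ) + 1) ^ 2) :=
      (tendsto_order.1 h1).1 b (by linarith [hq1.2])
    have h3 : ∀ᶠ m : ℕ in atTop, (q : ℝ) < s * ((m : ℝ) ^ 2 / ((m : ℝ) + 1) ^ 2) := by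
      have h4 : Tendsto (fun m : ℕ => s * ((m : ℝ) ^ 2 / ((m : ℝ) + 1) ^ 2)) atTop (𝓝 (s * 1)) :=
        hratio'.const_mul s
      exact (tendsto_order.1 h4).1 _ (by simpa using hq2)
    filter_upwards [sqrt_tendsto.eventually h2, sqrt_tendsto.eventually h3,
      sqrt_tendsto.eventually (eventually_gt_atTop 0)] with N hN2 hN3 hN4
    set m := Nat.sqrt N with hm
    have hmN : m ^ 2 ≤ N := by rw [hm, pow_two]; exact Nat.sqrt_le N
    have hNm : N ≤ (m + 1) ^ 2 := by rw [hm, pow_two]; exact (Nat.lt_succ_sqrt N).le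
    have hm0 : (0 : ℝ) < m := by exact_mod_cast hN4
    have hNpos : (0 : ℝ) < N := by
      have : (0 : ℝ) < ((m ^ 2 : ℕ) : ℝ) := by positivity
      exact this.trans_le (by exact_mod_cast hmN)
    have hmN' : (m : ℝ) ^ 2 ≤ N := by exact_mod_cast hmN
    have hNm' : (N : ℝ) ≤ ((m : ℝ) + 1) ^ 2 := by exact_mod_cast hNm
    have hδ : (q : ℝ) / (m : ℝ) ^ 2 ≤ s / N := by
      rw [div_le_div_iff₀ (by positivity) hNpos]
      have h5 : (q : ℝ) * ((m : ℝ) + 1) ^ 2 < s * (m : ℝ) ^ 2 := by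
        rw [← mul_div_assoc, lt_div_iff₀ (by positivity)] at hN3
        exact hN3
      calc (q : ℝ) * N ≤ q * ((m : ℝ) + 1) ^ 2 := by
            apply mul_le_mul_of_nonneg_left hNm' hq1.1.le
        _ ≤ s * (m : ℝ) ^ 2 := h5.le
    have hc : (cpT x (m ^ 2) (q / (m : ℝ) ^ 2) : ℝ) ≤ cpT x N (s / N) := by
      exact_mod_cast cpT_mono x hmN hδ
    calc b < (cpT x (m ^ 2) (q / (m : ℝ) ^ 2) : ℝ) / (m : ℝ) ^ 2 *
          ((m : ℝ) ^ 2 / ((m : ℝ) + 1) ^ 2) := hN2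
      _ = (cpT x (m ^ 2) (q / (m : ℝ) ^ 2) : ℝ) / ((m : ℝ) + 1) ^ 2 := by field_simp
      _ ≤ (cpT x N (s / N) : ℝ) / N := by
          apply div_le_div₀ (by positivity) hc hNpos hNm'
  · -- upper bound
    intro b hb
    obtain ⟨q, hq1, hq2⟩ : ∃ q : ℚ, s < (q : ℝ) ∧ (q : ℝ) < b / 2 :=
      exists_rat_btwn (by linarith)
    have hq0 : (0 : ℚ) < q := by exact_mod_cast hs.trans hq1
    have h1 : Tendsto (fun m : ℕ => (cpT x ((m + 1) ^ 2) (q / ((m : ℝ) + 1) ^ 2) : ℝ) /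
        ((m : ℝ) + 1) ^ 2 * (((m : ℝ) + 1) ^ 2 / (m : ℝ) ^ 2)) atTop (𝓝 (2 * (q : ℝ) * 1)) := by
      refine Tendsto.mul ?_ hratio
      have := (h q hq0).comp (tendsto_add_atTop_nat 1)
      refine this.congr fun m => ?_
      simp only [Function.comp_apply]
      push_cast
      rfl
    have h2 := (tendsto_order.1 h1).2 b (by linarith)
    have h3 : ∀ᶠ m : ℕ in atTop, s * (((m : ℝ) + 1) ^ 2 / (m : ℝ) ^ 2) < q := by
      have h4 : Tendsto (fun m : ℕ => s * (((m : ℝ) + 1) ^ 2 / (m : ℝ) ^ 2)) atTop (𝓝 (s * 1)) :=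
        hratio.const_mul s
      exact (tendsto_order.1 h4).2 _ (by simpa using hq1)
    filter_upwards [sqrt_tendsto.eventually h2, sqrt_tendsto.eventually h3,
      sqrt_tendsto.eventually (eventually_gt_atTop 0)] with N hN2 hN3 hN4
    set m := Nat.sqrt N with hm
    have hmN : m ^ 2 ≤ N := by rw [hm, pow_two]; exact Nat.sqrt_le N
    have hNm : N ≤ (m + 1) ^ 2 := by rw [hm, pow_two]; exact (Nat.lt_succ_sqrt N).le
    have hm0 : (0 : ℝ) < m := by exact_mod_cast hN4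
    have hNpos : (0 : ℝ) < N := by
      have : (0 : ℝ) < ((m ^ 2 : ℕ) : ℝ) := by positivity
      exact this.trans_le (by exact_mod_cast hmN)
    have hmN' : (m : ℝ) ^ 2 ≤ N := by exact_mod_cast hmN
    have hδ : s / N ≤ (q : ℝ) / ((m : ℝ) + 1) ^ 2 := by
      rw [div_le_div_iff₀ hNpos (by positivity)]
      have h5 : s * ((m : ℝ) + 1) ^ 2 < q * (m : ℝ) ^ 2 := by
        rw [← mul_div_assoc, div_lt_iff₀ (by positivity)] at hN3
        exact hN3
      calc s * ((m : ℝ) + 1) ^ 2 ≤ q * (m : ℝ) ^ 2 := h5.le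
        _ ≤ q * N := by
            apply mul_le_mul_of_nonneg_left hmN' (hs.trans hq1).le
    have hc : (cpT x N (s / N) : ℝ) ≤ cpT x ((m + 1) ^ 2) (q / ((m : ℝ) + 1) ^ 2) := by
      exact_mod_cast cpT_mono x hNm hδ
    calc (cpT x N (s / N) : ℝ) / N
        ≤ (cpT x ((m + 1) ^ 2) (q / ((m : ℝ) + 1) ^ 2) : ℝ) / (m : ℝ) ^ 2 := by
          apply div_le_div₀ (by positivity) hc (by positivity) hmN'
      _ = (cpT x ((m + 1) ^ 2) (q / ((m : ℝ) + 1) ^ 2) : ℝ) / ((m : ℝ) + 1) ^ 2 *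
          (((m : ℝ) + 1) ^ 2 / (m : ℝ) ^ 2) := by field_simp
      _ < b := hN2


/-! ### The random model -/

/-- shorthand for the circle -/
abbrev T := UnitAddCircle

instance instProbT : IsProbabilityMeasure (volume : Measure T) := ⟨by
  simp⟩

/-- Haar measure on the two-dimensional torus -/
noncomputable def μ2 : Measure (T × T) := (volume : Measure T).prod (volume : Measure T)
instance instHaar2 : Measure.IsAddHaarMeasure μ2 := by unfold μ2; infer_instance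
instance instProb2 : IsProbabilityMeasure μ2 := by unfold μ2; infer_instance
/-- Haar measure on the three-dimensional torus -/
noncomputable def μ3 : Measure (T × (T × T)) := (volume : Measure T).prod μ2
instance instHaar3 : Measure.IsAddHaarMeasure μ3 := by
  unfold μ3
  exact Measure.prod.instIsAddHaarMeasure _ _
instance instProb3 : IsProbabilityMeasure μ3 := by unfold μ3; infer_instance

/-- the homomorphism attached to an integer vector -/
noncomputable def Dm (a b c : ℤ) : T × (T × T) →+ T where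
  toFun ω := a • ω.1 + b • ω.2.1 + c • ω.2.2
  map_zero' := by simp
  map_add' x y := by
    simp only [Prod.fst_add, Prod.snd_add, smul_add]
    abel

lemma Dm_apply (a b c : ℤ) (ω : T × (T × T)) :
    Dm a b c ω = a • ω.1 + b • ω.2.1 + c • ω.2.2 := rfl

lemma Dm_continuous (a b c : ℤ) : Continuous (Dm a b c) := by
  show Continuous fun ω : T × (T × T) => a • ω.1 + b • ω.2.1 + c • ω.2.2
  fun_prop

lemma surj_two (a b a' b' : ℤ) (h : a * b' - a' * b ≠ 0) (y z : T) :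
    ∃ u v : T, a • u + b • v = y ∧ a' • u + b' • v = z := by
  obtain ⟨y, rfl⟩ := QuotientAddGroup.mk_surjective y
  obtain ⟨z, rfl⟩ := QuotientAddGroup.mk_surjective z
  have hΔ : ((a : ℝ) * b' - a' * b) ≠ 0 := by exact_mod_cast h
  refine ⟨(((b' * y - b * z) / ((a : ℝ) * b' - a' * b) : ℝ) : T),
    (((a * z - a' * y) / ((a : ℝ) * b' - a' * b) : ℝ) : T), ?_, ?_⟩
  · rw [← AddCircle.coe_zsmul, ← AddCircle.coe_zsmul, ← AddCircle.coe_add]
    congr 1
    rw [zsmul_eq_mul, zsmul_eq_mul, mul_div_assoc', mul_div_assoc', ← add_div, div_eq_iff hΔ]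
    ring
  · rw [← AddCircle.coe_zsmul, ← AddCircle.coe_zsmul, ← AddCircle.coe_add]
    congr 1
    rw [zsmul_eq_mul, zsmul_eq_mul, mul_div_assoc', mul_div_assoc', ← add_div, div_eq_iff hΔ]
    ring

lemma map_Dm (a b c : ℤ) (h : a ≠ 0) : μ3.map (Dm a b c) = volume := by
  have hs : Function.Surjective (Dm a b c) := by
    intro y
    obtain ⟨u, v, huv, -⟩ := surj_two a 0 0 1 (by simpa using h) y 0
    refine ⟨(u, (0, 0)), ?_⟩
    rw [Dm_apply]
    simpa using huv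
  have := Measure.isAddHaarMeasure_map_of_isFiniteMeasure μ3 (Dm a b c) (Dm_continuous a b c) hs
  have : IsProbabilityMeasure (μ3.map (Dm a b c)) :=
    Measure.isProbabilityMeasure_map (Dm_continuous a b c).measurable.aemeasurable
  exact Measure.isAddHaarMeasure_eq_of_isProbabilityMeasure _ _

lemma map_pair (a b c a' b' c' : ℤ) (h : a * b' - a' * b ≠ 0 ∨ a * c' - a' * c ≠ 0) :
    μ3.map (fun ω => (Dm a b c ω, Dm a' b' c' ω)) = (volume : Measure T).prod volume := by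
  have hs : Function.Surjective ((Dm a b c).prod (Dm a' b' c')) := by
    rintro ⟨y, z⟩
    rcases h with h | h
    · obtain ⟨u, v, h1, h2⟩ := surj_two a b a' b' h y z
      refine ⟨(u, (v, 0)), ?_⟩
      rw [AddMonoidHom.prod_apply, Dm_apply, Dm_apply]
      simp [h1, h2]
    · obtain ⟨u, v, h1, h2⟩ := surj_two a c a' c' h y z
      refine ⟨(u, (0, v)), ?_⟩
      rw [AddMonoidHom.prod_apply, Dm_apply, Dm_apply]
      simp [h1, h2]
  have hc : Continuous ((Dm a b c).prod (Dm a' b' c')) := by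
    show Continuous fun ω => (Dm a b c ω, Dm a' b' c' ω)
    exact (Dm_continuous a b c).prodMk (Dm_continuous a' b' c')
  have := Measure.isAddHaarMeasure_map_of_isFiniteMeasure μ3 _ hc hs
  have : IsProbabilityMeasure (μ3.map ((Dm a b c).prod (Dm a' b' c'))) :=
    Measure.isProbabilityMeasure_map hc.measurable.aemeasurable
  have := Measure.isAddHaarMeasure_eq_of_isProbabilityMeasure
    (μ3.map ((Dm a b c).prod (Dm a' b' c'))) μ2
  exact this

lemma indep_Dm (a b c a' b' c' : ℤ) (ha : a ≠ 0) (ha' : a' ≠ 0)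
    (h : a * b' - a' * b ≠ 0 ∨ a * c' - a' * c ≠ 0) :
    IndepFun (Dm a b c) (Dm a' b' c') μ3 := by
  rw [indepFun_iff_map_prod_eq_prod_map_map (Dm_continuous a b c).measurable.aemeasurable
    (Dm_continuous a' b' c').measurable.aemeasurable, map_pair a b c a' b' c' h,
    map_Dm a b c ha, map_Dm a' b' c' ha']

/-- the random sequence -/
noncomputable def X (ω : T × (T × T)) (n : ℕ) : T :=
  (n : ℤ) • ω.1 + ((n : ℤ) ^ 2) • ω.2.1 + ((n : ℤ) ^ 3) • ω.2.2

/-- the difference homomorphism -/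
noncomputable def Dp (p : ℕ × ℕ) : T × (T × T) →+ T :=
  Dm ((p.1 : ℤ) - p.2) ((p.1 : ℤ) ^ 2 - (p.2 : ℤ) ^ 2) ((p.1 : ℤ) ^ 3 - (p.2 : ℤ) ^ 3)

lemma X_sub (ω : T × (T × T)) (p : ℕ × ℕ) : X ω p.1 - X ω p.2 = Dp p ω := by
  unfold Dp
  rw [Dm_apply, sub_zsmul, sub_zsmul, sub_zsmul]
  unfold X
  abel

lemma indep_Dp {p q : ℕ × ℕ} (hp : p.1 < p.2) (hq : q.1 < q.2) (hpq : p ≠ q) :
    IndepFun (Dp p) (Dp q) μ3 := by
  obtain ⟨k, l⟩ := p
  obtain ⟨k', l'⟩ := q
  simp only at hp hq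
  have h1 : (k : ℤ) - l ≠ 0 := by omega
  have h2 : (k' : ℤ) - l' ≠ 0 := by omega
  refine indep_Dm _ _ _ _ _ _ h1 h2 ?_
  by_contra hcon
  rw [not_or, not_not, not_not] at hcon
  obtain ⟨e1, e2⟩ := hcon
  simp only at e1 e2
  have h3 : ((k : ℤ) - l) * (k' - l') ≠ 0 := mul_ne_zero h1 h2
  have e3 : (k' : ℤ) + l' = k + l := by
    have : ((k : ℤ) - l) * (k' - l') * ((k' + l') - (k + l)) = 0 := by linear_combination e1
    rcases mul_eq_zero.mp this with h | h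
    · exact absurd h h3
    · linarith
  have e4 : (k' : ℤ) ^ 2 + k' * l' + l' ^ 2 = k ^ 2 + k * l + l ^ 2 := by
    have : ((k : ℤ) - l) * (k' - l') *
        (((k' : ℤ) ^ 2 + k' * l' + l' ^ 2) - (k ^ 2 + k * l + l ^ 2)) = 0 := by
      linear_combination e2
    rcases mul_eq_zero.mp this with h | h
    · exact absurd h h3
    · linarith
  have e5 : ((k : ℤ) - k') * (k - l') = 0 := by
    have hl' : (l' : ℤ) = k + l - k' := by linarith
    rw [hl'] at e4 ⊢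
    linear_combination (-1 : ℤ) * e4
  apply hpq
  rcases mul_eq_zero.mp e5 with h | h
  · have h5 : k = k' := by omega
    have h6 : l = l' := by omega
    rw [h5, h6]
  · exfalso
    omega

/-- indicator of a close pair -/
noncomputable def Z (δ : ℝ) (p : ℕ × ℕ) (ω : T × (T × T)) : ℝ :=
  (Metric.ball (0 : T) δ).indicator (fun _ => (1 : ℝ)) (Dp p ω)

lemma measurable_ind (δ : ℝ) :
    Measurable ((Metric.ball (0 : T) δ).indicator (fun _ => (1 : ℝ))) :=
  measurable_const.indicator measurableSet_ball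

lemma Dp_measurable (p : ℕ × ℕ) : Measurable (Dp p) := (Dm_continuous _ _ _).measurable

lemma Z_measurable (δ : ℝ) (p : ℕ × ℕ) : Measurable (Z δ p) :=
  (measurable_ind δ).comp (Dp_measurable p)

lemma Z_indep (δ : ℝ) {p q : ℕ × ℕ} (hp : p.1 < p.2) (hq : q.1 < q.2) (hpq : p ≠ q) :
    IndepFun (Z δ p) (Z δ q) μ3 :=
  (indep_Dp hp hq hpq).comp (measurable_ind δ) (measurable_ind δ)

lemma Z_bounds (δ : ℝ) (p : ℕ × ℕ) (ω : T × (T × T)) : 0 ≤ Z δ p ω ∧ Z δ p ω ≤ 1 := by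
  unfold Z Set.indicator
  split_ifs <;> simp

lemma Z_memLp (δ : ℝ) (p : ℕ × ℕ) : MemLp (Z δ p) 2 μ3 := by
  refine MemLp.of_bound (Z_measurable δ p).aestronglyMeasurable 1 (Eventually.of_forall ?_)
  intro ω
  rw [Real.norm_eq_abs, abs_of_nonneg (Z_bounds δ p ω).1]
  exact (Z_bounds δ p ω).2

lemma Z_integral {δ : ℝ} (h0 : 0 < δ) (h1 : δ ≤ 1 / 2) {p : ℕ × ℕ} (hp : p.1 < p.2) :
    ∫ ω, Z δ p ω ∂μ3 = 2 * δ := by
  have h2 : ∫ ω, Z δ p ω ∂μ3 =
      ∫ y, (Metric.ball (0 : T) δ).indicator (fun _ => (1 : ℝ)) y ∂(μ3.map (Dp p)) := by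
    rw [integral_map (Dp_measurable p).aemeasurable (measurable_ind δ).aestronglyMeasurable]
    rfl
  have hmap : μ3.map (Dp p) = volume := map_Dm _ _ _ (by omega)
  rw [h2, hmap, integral_indicator measurableSet_ball, setIntegral_const, smul_eq_mul, mul_one,
    measureReal_def]
  have h3 : volume (Metric.ball (0 : T) δ) = volume (Metric.closedBall (0 : T) δ) :=
    (measure_congr AddCircle.closedBall_ae_eq_ball).symm
  rw [h3, AddCircle.volume_closedBall, min_eq_right (by linarith), ENNReal.toReal_ofReal (by linarith)]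

lemma Z_variance {δ : ℝ} (h0 : 0 < δ) (h1 : δ ≤ 1 / 2) {p : ℕ × ℕ} (hp : p.1 < p.2) :
    variance (Z δ p) μ3 ≤ 2 * δ := by
  refine (variance_le_expectation_sq (Z_measurable δ p).aestronglyMeasurable).trans ?_
  rw [← Z_integral h0 h1 hp]
  refine integral_mono_of_nonneg (Eventually.of_forall fun ω => sq_nonneg (Z δ p ω)) ?_
    (Eventually.of_forall ?_)
  · exact (Z_memLp δ p).integrable (by norm_num)
  · intro ω
    have := Z_bounds δ p ω
    simp only [Pi.pow_apply]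
    nlinarith

/-- unordered pairs of indices below `N` -/
def pairs (N : ℕ) : Finset (ℕ × ℕ) := (range N ×ˢ range N).filter (fun p => p.1 < p.2)

lemma mem_pairs {N : ℕ} {p : ℕ × ℕ} : p ∈ pairs N ↔ p.1 < p.2 ∧ p.2 < N := by
  unfold pairs
  simp only [Finset.mem_filter, Finset.mem_product, Finset.mem_range]
  constructor
  · rintro ⟨⟨_, h2⟩, h3⟩; exact ⟨h3, h2⟩
  · rintro ⟨h1, h2⟩; exact ⟨⟨by omega, h2⟩, h1⟩

lemma card_split (N : ℕ) (P : ℕ × ℕ → Prop) [DecidablePred P] (hP : ∀ p, P p ↔ P p.swap) :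
    ((range N ×ˢ range N).filter (fun p => p.1 ≠ p.2 ∧ P p)).card =
      2 * ((pairs N).filter P).card := by
  have h1 : (range N ×ˢ range N).filter (fun p => p.1 ≠ p.2 ∧ P p) =
      ((pairs N).filter P) ∪ (((pairs N).filter P).image Prod.swap) := by
    ext ⟨k, l⟩
    simp only [Finset.mem_filter, Finset.mem_product, Finset.mem_range, Finset.mem_union,
      Finset.mem_image, mem_pairs, Prod.exists, Prod.swap_prod_mk, Prod.mk.injEq]
    constructor
    · rintro ⟨⟨h1, h2⟩, h3, h4⟩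
      rcases Nat.lt_or_gt_of_ne h3 with h | h
      · left; exact ⟨⟨h, h2⟩, h4⟩
      · right
        refine ⟨l, k, ⟨⟨h, h1⟩, ?_⟩, rfl, rfl⟩
        exact (hP _).1 h4
    · rintro (⟨⟨h1, h2⟩, h3⟩ | ⟨a, b, ⟨⟨h1, h2⟩, h3⟩, rfl, rfl⟩)
      · exact ⟨⟨by omega, h2⟩, by omega, h3⟩
      · exact ⟨⟨by omega, by omega⟩, by omega, (hP _).1 h3⟩
  rw [h1, Finset.card_union_of_disjoint, Finset.card_image_of_injective _ Prod.swap_injective]
  · ring
  · rw [Finset.disjoint_left]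
    rintro ⟨k, l⟩ h2 h3
    simp only [Finset.mem_filter, Finset.mem_image, mem_pairs, Prod.exists, Prod.swap_prod_mk,
      Prod.mk.injEq] at h2 h3
    obtain ⟨a, b, ⟨⟨h4, h5⟩, h6⟩, rfl, rfl⟩ := h3
    omega

lemma card_pairs (N : ℕ) : 2 * (pairs N).card = N * N - N := by
  have h := card_split N (fun _ => True) (fun _ => Iff.rfl)
  have h2 : (pairs N).filter (fun _ => True) = pairs N := Finset.filter_true_of_mem (fun _ _ => trivial)
  rw [h2] at h
  rw [← h]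
  have h3 : (range N ×ˢ range N).filter (fun p => p.1 ≠ p.2 ∧ True) = (range N).offDiag := by
    ext ⟨k, l⟩
    simp [Finset.mem_offDiag, and_assoc]
  rw [h3, Finset.offDiag_card, Finset.card_range]

lemma cpT_eq_sum (ω : T × (T × T)) (N : ℕ) (δ : ℝ) :
    (cpT (X ω) N δ : ℝ) = 2 * ∑ p ∈ pairs N, Z δ p ω := by
  unfold cpT
  rw [card_split N (fun p => ‖X ω p.1 - X ω p.2‖ < δ) (by
    intro p
    simp only [Prod.fst_swap, Prod.snd_swap]
    rw [norm_sub_rev])]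
  push_cast
  congr 1
  rw [Finset.card_filter, Nat.cast_sum]
  apply Finset.sum_congr rfl
  intro p _
  unfold Z Set.indicator
  rw [X_sub]
  simp only [Metric.mem_ball, dist_zero_right]
  split_ifs <;> simp

/-- Chebyshev's inequality for the pair counts -/
lemma cheb {s ε : ℝ} (hs : 0 < s) (hε : 0 < ε) {m : ℕ} (hm : 1 ≤ m)
    (hm2 : s / (m : ℝ) ^ 2 ≤ 1 / 2) :
    μ3 {ω | ε * (m : ℝ) ^ 2 ≤ |(cpT (X ω) (m ^ 2) (s / (m : ℝ) ^ 2) : ℝ)
      - 2 * s * ((m : ℝ) ^ 2 - 1)|} ≤ ENNReal.ofReal (4 * s / (ε ^ 2 * (m : ℝ) ^ 2)) := by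
  set δ := s / (m : ℝ) ^ 2 with hδ
  have hmpos : (0 : ℝ) < m := by exact_mod_cast hm
  have hδ0 : 0 < δ := by positivity
  set S : T × (T × T) → ℝ := ∑ p ∈ pairs (m ^ 2), Z δ p with hS
  have hSm : MemLp S 2 μ3 := memLp_finsetSum' _ (fun p _ => Z_memLp δ p)
  have hcard : (2 : ℝ) * (pairs (m ^ 2)).card = (m : ℝ) ^ 2 * (m : ℝ) ^ 2 - (m : ℝ) ^ 2 := by
    have h := card_pairs (m ^ 2)
    have h1 : m ^ 2 ≤ m ^ 2 * m ^ 2 := Nat.le_mul_of_pos_left _ (by positivity)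
    have h2 : ((2 * (pairs (m ^ 2)).card : ℕ) : ℝ) = ((m ^ 2 * m ^ 2 - m ^ 2 : ℕ) : ℝ) := by rw [h]
    rw [Nat.cast_sub h1] at h2
    push_cast at h2
    exact h2
  have hmean : μ3[S] = s * ((m : ℝ) ^ 2 - 1) := by
    have h1 : μ3[S] = ∑ p ∈ pairs (m ^ 2), ∫ ω, Z δ p ω ∂μ3 := by
      rw [hS]
      simp only [Finset.sum_apply]
      rw [integral_finsetSum]
      intro p _
      exact (Z_memLp δ p).integrable (by norm_num)
    rw [h1, Finset.sum_congr rfl (fun p hp => Z_integral hδ0 hm2 (mem_pairs.1 hp).1),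
      Finset.sum_const, nsmul_eq_mul]
    have h2 : ((pairs (m ^ 2)).card : ℝ) * (2 * δ) = (2 * (pairs (m ^ 2)).card) * δ := by ring
    rw [h2, hcard, hδ]
    field_simp
  have hvar : variance S μ3 ≤ s * (m : ℝ) ^ 2 := by
    rw [hS, IndepFun.variance_sum (fun p _ => Z_memLp δ p)]
    · calc ∑ p ∈ pairs (m ^ 2), variance (Z δ p) μ3
          ≤ ∑ p ∈ pairs (m ^ 2), 2 * δ :=
            Finset.sum_le_sum (fun p hp => Z_variance hδ0 hm2 (mem_pairs.1 hp).1)
        _ = (2 * (pairs (m ^ 2)).card) * δ := by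
            rw [Finset.sum_const, nsmul_eq_mul]; ring
        _ ≤ s * (m : ℝ) ^ 2 := by
            rw [hcard, hδ, mul_div_assoc', div_le_iff₀ (by positivity)]
            have : 0 ≤ s * (m : ℝ) ^ 2 := by positivity
            nlinarith
    · intro p hp q hq hpq
      exact Z_indep δ (mem_pairs.1 hp).1 (mem_pairs.1 hq).1 hpq
  have hset : {ω | ε * (m : ℝ) ^ 2 ≤ |(cpT (X ω) (m ^ 2) δ : ℝ) - 2 * s * ((m : ℝ) ^ 2 - 1)|} =
      {ω | ε * (m : ℝ) ^ 2 / 2 ≤ |S ω - μ3[S]|} := by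
    ext ω
    simp only [Set.mem_ofPred_eq]
    rw [cpT_eq_sum, hmean, hS, Finset.sum_apply]
    have h1 : 2 * ∑ p ∈ pairs (m ^ 2), Z δ p ω - 2 * s * ((m : ℝ) ^ 2 - 1) =
        2 * (∑ p ∈ pairs (m ^ 2), Z δ p ω - s * ((m : ℝ) ^ 2 - 1)) := by ring
    rw [h1, abs_mul, abs_of_pos (by norm_num : (0 : ℝ) < 2)]
    constructor <;> intro h <;> linarith
  rw [hset]
  refine (meas_ge_le_variance_div_sq hSm (by positivity)).trans ?_
  apply ENNReal.ofReal_le_ofReal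
  rw [div_le_div_iff₀ (by positivity) (by positivity)]
  have h1 : variance S μ3 * (ε ^ 2 * (m : ℝ) ^ 2) ≤ s * (m : ℝ) ^ 2 * (ε ^ 2 * (m : ℝ) ^ 2) :=
    mul_le_mul_of_nonneg_right hvar (by positivity)
  calc variance S μ3 * (ε ^ 2 * (m : ℝ) ^ 2) ≤ s * (m : ℝ) ^ 2 * (ε ^ 2 * (m : ℝ) ^ 2) := h1
    _ = 4 * s * (ε * (m : ℝ) ^ 2 / 2) ^ 2 := by ring

lemma ae_eventually {s ε : ℝ} (hs : 0 < s) (hε : 0 < ε) :
    ∀ᵐ ω ∂μ3, ∀ᶠ m : ℕ in atTop, |(cpT (X ω) (m ^ 2) (s / (m : ℝ) ^ 2) : ℝ)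
      - 2 * s * ((m : ℝ) ^ 2 - 1)| < ε * (m : ℝ) ^ 2 := by
  obtain ⟨m0, hm0⟩ : ∃ m0 : ℕ, 1 ≤ m0 ∧ ∀ m ≥ m0, s / (m : ℝ) ^ 2 ≤ 1 / 2 := by
    refine ⟨⌈2 * s⌉₊ + 1, by omega, fun m hm => ?_⟩
    have h1 : 2 * s ≤ m := by
      have := Nat.le_ceil (2 * s)
      have h2 : ((⌈2 * s⌉₊ + 1 : ℕ) : ℝ) ≤ m := by exact_mod_cast hm
      push_cast at h2
      linarith
    have h2 : (1 : ℝ) ≤ m := by
      have h3 : ((⌈2 * s⌉₊ + 1 : ℕ) : ℝ) ≤ m := by exact_mod_cast hm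
      push_cast at h3
      have : (0 : ℝ) ≤ (⌈2 * s⌉₊ : ℝ) := by positivity
      linarith
    rw [div_le_iff₀ (by positivity)]
    nlinarith
  let E : ℕ → Set (T × (T × T)) := fun i => {ω | ε * ((i + m0 : ℕ) : ℝ) ^ 2 ≤
    |(cpT (X ω) ((i + m0) ^ 2) (s / ((i + m0 : ℕ) : ℝ) ^ 2) : ℝ)
      - 2 * s * (((i + m0 : ℕ) : ℝ) ^ 2 - 1)|}
  have hE : ∀ i, μ3 (E i) ≤ ENNReal.ofReal (4 * s / ε ^ 2 * (1 / ((i : ℝ) + 1) ^ 2)) := by
    intro i
    refine (cheb hs hε (by omega) (hm0.2 _ (by omega))).trans ?_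
    apply ENNReal.ofReal_le_ofReal
    rw [div_mul_div_comm, mul_one]
    apply div_le_div_of_nonneg_left (by positivity) (by positivity)
    apply mul_le_mul_of_nonneg_left _ (by positivity)
    have : (i : ℝ) + 1 ≤ ((i + m0 : ℕ) : ℝ) := by
      push_cast
      have : (1 : ℝ) ≤ m0 := by exact_mod_cast hm0.1
      linarith
    gcongr
  have hsum : ∑' i, μ3 (E i) ≠ ⊤ := by
    have h1 : Summable fun i : ℕ => 4 * s / ε ^ 2 * (1 / ((i : ℝ) + 1) ^ 2) := by
      apply Summable.mul_left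
      have := (summable_nat_add_iff 1).2 (Real.summable_one_div_nat_pow.2 (by norm_num : 1 < 2))
      simpa using this
    refine ne_top_of_le_ne_top ?_ (ENNReal.tsum_le_tsum hE)
    rw [← ENNReal.ofReal_tsum_of_nonneg (fun i => by positivity) h1]
    exact ENNReal.ofReal_ne_top
  have hlim := measure_limsup_atTop_eq_zero hsum
  have hae : ∀ᵐ ω ∂μ3, ω ∉ limsup E atTop := by
    rw [ae_iff]
    simpa using hlim
  filter_upwards [hae] with ω hω
  rw [mem_limsup_iff_frequently_mem, not_frequently] at hω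
  obtain ⟨i0, hi0⟩ := eventually_atTop.1 hω
  filter_upwards [eventually_ge_atTop (i0 + m0)] with m hm
  have h1 := hi0 (m - m0) (by omega)
  have h2 : m - m0 + m0 = m := by omega
  simp only [E, Set.mem_ofPred_eq, not_le] at h1
  rw [h2] at h1
  exact h1

/-- **There is a sequence on the circle with Poissonian pair correlations.** -/
theorem exists_ppc : ∃ u : ℕ → UnitAddCircle, PPCT u := by
  have hae : ∀ᵐ ω ∂μ3, ∀ (s : ℚ) (q : ℕ), 0 < s → ∀ᶠ m : ℕ in atTop,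
      |(cpT (X ω) (m ^ 2) (s / (m : ℝ) ^ 2) : ℝ) - 2 * s * ((m : ℝ) ^ 2 - 1)|
        < (1 / ((q : ℝ) + 1)) * (m : ℝ) ^ 2 := by
    rw [ae_all_iff]
    intro s
    rw [ae_all_iff]
    intro q
    by_cases hs : 0 < s
    · filter_upwards [ae_eventually (s := (s : ℝ)) (ε := 1 / ((q : ℝ) + 1))
        (by exact_mod_cast hs) (by positivity)] with ω hω _
      exact hω
    · filter_upwards with ω h
      exact absurd h hs
  obtain ⟨ω, hω⟩ := hae.exists
  refine ⟨X ω, ppc_of_squares _ fun s hs => ?_⟩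
  rw [Metric.tendsto_atTop]
  intro ε hε
  obtain ⟨q, hq⟩ := exists_nat_one_div_lt (show (0 : ℝ) < ε / 2 by positivity)
  have h1 := hω s q hs
  have h2 : ∀ᶠ m : ℕ in atTop, 2 * (s : ℝ) / (m : ℝ) ^ 2 < ε / 2 := by
    have h3 : Tendsto (fun m : ℕ => 2 * (s : ℝ) / (m : ℝ) ^ 2) atTop (𝓝 0) := by
      have h4 : Tendsto (fun m : ℕ => (m : ℝ) ^ 2) atTop atTop :=
        (tendsto_pow_atTop (by norm_num)).comp tendsto_natCast_atTop_atTop
      exact h4.const_div_atTop _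
    exact (tendsto_order.1 h3).2 _ (by positivity)
  obtain ⟨M, hM⟩ := eventually_atTop.1 (h1.and (h2.and (eventually_gt_atTop 0)))
  refine ⟨M, fun m hm => ?_⟩
  obtain ⟨h5, h6, h7⟩ := hM m hm
  have hm0 : (0 : ℝ) < (m : ℝ) ^ 2 := by
    have : (0 : ℝ) < m := by exact_mod_cast h7
    positivity
  rw [Real.dist_eq]
  set c := (cpT (X ω) (m ^ 2) (s / (m : ℝ) ^ 2) : ℝ) with hc
  have h8 : c / (m : ℝ) ^ 2 - 2 * s = (c - 2 * s * ((m : ℝ) ^ 2 - 1)) / (m : ℝ) ^ 2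
      - 2 * s / (m : ℝ) ^ 2 := by
    field_simp
    ring
  rw [h8]
  have hs' : (0 : ℝ) < s := by exact_mod_cast hs
  calc |(c - 2 * s * ((m : ℝ) ^ 2 - 1)) / (m : ℝ) ^ 2 - 2 * s / (m : ℝ) ^ 2|
      ≤ |(c - 2 * s * ((m : ℝ) ^ 2 - 1)) / (m : ℝ) ^ 2| + |2 * s / (m : ℝ) ^ 2| := abs_sub _ _
    _ < ε / 2 + ε / 2 := by
        apply add_lt_add
        · rw [abs_div, abs_of_pos hm0, div_lt_iff₀ hm0]
          calc _ < (1 / ((q : ℝ) + 1)) * (m : ℝ) ^ 2 := h5
            _ ≤ ε / 2 * (m : ℝ) ^ 2 := mul_le_mul_of_nonneg_right hq.le hm0.le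
        · rw [abs_of_pos (by positivity)]
          exact h6
    _ = ε := by ring

end Pool.Agent.H91.PPCExist
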