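import Mathlib
import Pool.Agent.H91.PPCExist

/-!
# Perturbing a sequence with Poissonian pair correlations and inserting separated blocks
-/

set_option autoImplicit false

namespace Pool.Agent.H91.PPCBlocks

open Filter Topology Finset Pool.Agent.H91.PPCExist

/-! ### Transfer lemma -/

lemma transfer (u x : ℕ → UnitAddCircle) (φ : ℕ → ℕ)
    (hφ : Tendsto (fun N : ℕ => (φ N : ℝ) / N) atTop (𝓝 1)) (hφ' : Tendsto φ atTop atTop)
    (hu : PPCT u)
    (up : ∀ s : ℝ, 0 < s → ∀ s' : ℝ, s < s' → ∃ e : ℕ → ℝ, Tendsto e atTop (𝓝 0) ∧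
      ∀ᶠ N : ℕ in atTop, (cpT x N (s / N) : ℝ) ≤ cpT u (φ N) (s' / φ N) + e N * N)
    (lo : ∀ s : ℝ, 0 < s → ∀ s' : ℝ, 0 < s' → s' < s → ∃ e : ℕ → ℝ, Tendsto e atTop (𝓝 0) ∧
      ∀ᶠ N : ℕ in atTop, (cpT u (φ N) (s' / φ N) : ℝ) ≤ cpT x N (s / N) + e N * N) :
    PPCT x := by
  have hlim : ∀ s' : ℝ, 0 < s' → Tendsto (fun N : ℕ => (cpT u (φ N) (s' / φ N) : ℝ) / N) atTop
      (𝓝 (2 * s')) := by
    intro s' hs'
    have h1 := ((hu s' hs').comp hφ').mul hφ
    rw [mul_one] at h1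
    refine h1.congr' ?_
    filter_upwards [hφ'.eventually (eventually_gt_atTop 0), eventually_gt_atTop 0] with N h2 h3
    simp only [Function.comp_apply]
    have : (φ N : ℝ) ≠ 0 := by positivity
    have : (N : ℝ) ≠ 0 := by positivity
    field_simp
  intro s hs
  rw [tendsto_order]
  constructor
  · intro b hb
    obtain ⟨s', h1, h2⟩ : ∃ s', max 0 (b / 2) < s' ∧ s' < s :=
      exists_between (by rw [max_lt_iff]; exact ⟨hs, by linarith⟩)
    rw [max_lt_iff] at h1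
    obtain ⟨e, he, hle⟩ := lo s hs s' h1.1 h2
    have h3 := (hlim s' h1.1).sub he
    have h4 := (tendsto_order.1 h3).1 b (by linarith [h1.2])
    filter_upwards [hle, h4, eventually_gt_atTop 0] with N h5 h6 h7
    have hN : (0 : ℝ) < N := by exact_mod_cast h7
    refine h6.trans_le ?_
    rw [sub_le_iff_le_add, div_le_iff₀ hN, add_mul, div_mul_cancel₀ _ hN.ne']
    exact h5
  · intro b hb
    obtain ⟨s', h1, h2⟩ : ∃ s', s < s' ∧ s' < b / 2 := exists_between (by linarith)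
    obtain ⟨e, he, hle⟩ := up s hs s' h1
    have h3 := (hlim s' (hs.trans h1)).add he
    have h4 := (tendsto_order.1 h3).2 b (by linarith)
    filter_upwards [hle, h4, eventually_gt_atTop 0] with N h5 h6 h7
    have hN : (0 : ℝ) < N := by exact_mod_cast h7
    refine lt_of_le_of_lt ?_ h6
    rw [div_le_iff₀ hN, add_mul, div_mul_cancel₀ _ hN.ne']
    exact h5

/-- linear upper bound for the pair counts -/
lemma cp_linear {u : ℕ → UnitAddCircle} (hu : PPCT u) {s : ℝ} (hs : 0 < s) :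
    ∀ᶠ N : ℕ in atTop, (cpT u N (s / N) : ℝ) ≤ (2 * s + 1) * N := by
  have h1 := (tendsto_order.1 (hu s hs)).2 (2 * s + 1) (by linarith)
  filter_upwards [h1, eventually_gt_atTop 0] with N h2 h3
  have hN : (0 : ℝ) < N := by exact_mod_cast h3
  rw [div_lt_iff₀ hN] at h2
  exact h2.le

/-! ### Perturbation -/

lemma card_near (u y : ℕ → UnitAddCircle) (hy : ∀ n, ‖y n - u n‖ ≤ (1 / 2 : ℝ) ^ n)
    (N K k : ℕ) (δ : ℝ) :
    (((range N).filter (fun l => K ≤ l ∧ ‖y k - y l‖ < δ)).card : ℝ) ≤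
      1 + Real.sqrt (cpT u N (2 * δ + 2 * (1 / 2 : ℝ) ^ K)) := by
  set A := (range N).filter (fun l => K ≤ l ∧ ‖y k - y l‖ < δ) with hA
  have h1 : A.offDiag ⊆ (range N ×ˢ range N).filter
      (fun p => p.1 ≠ p.2 ∧ ‖u p.1 - u p.2‖ < 2 * δ + 2 * (1 / 2 : ℝ) ^ K) := by
    rintro ⟨l, l'⟩ hl
    rw [Finset.mem_offDiag, hA, Finset.mem_filter, Finset.mem_filter, Finset.mem_range,
      Finset.mem_range] at hl
    obtain ⟨⟨h1, h2, h3⟩, ⟨h4, h5, h6⟩, h7⟩ := hl
    simp only [Finset.mem_filter, Finset.mem_product, Finset.mem_range]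
    refine ⟨⟨h1, h4⟩, h7, ?_⟩
    have e1 : ‖u l - y l‖ ≤ (1 / 2 : ℝ) ^ K := by
      rw [norm_sub_rev]
      exact (hy l).trans (pow_le_pow_of_le_one (by norm_num) (by norm_num) h2)
    have e2 : ‖y l' - u l'‖ ≤ (1 / 2 : ℝ) ^ K :=
      (hy l').trans (pow_le_pow_of_le_one (by norm_num) (by norm_num) h5)
    have e3 : u l - u l' = (u l - y l) + (-(y k - y l)) + ((y k - y l') + (y l' - u l')) := by abel
    rw [e3]
    calc ‖(u l - y l) + (-(y k - y l)) + ((y k - y l') + (y l' - u l'))‖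
        ≤ (‖u l - y l‖ + ‖-(y k - y l)‖) + (‖y k - y l'‖ + ‖y l' - u l'‖) :=
          (norm_add_le _ _).trans (add_le_add (norm_add_le _ _) (norm_add_le _ _))
      _ < 2 * δ + 2 * (1 / 2 : ℝ) ^ K := by rw [norm_neg]; linarith
  have h2 := Finset.card_le_card h1
  rw [Finset.offDiag_card] at h2
  change A.card * A.card - A.card ≤ cpT u N (2 * δ + 2 * (1 / 2 : ℝ) ^ K) at h2
  rcases Nat.eq_zero_or_pos A.card with h0 | h0
  · rw [h0]
    have := Real.sqrt_nonneg (cpT u N (2 * δ + 2 * (1 / 2 : ℝ) ^ K) : ℝ)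
    push_cast
    linarith
  · have h3 : A.card ≤ A.card * A.card := Nat.le_mul_of_pos_left _ h0
    have h4 : ((A.card * A.card - A.card : ℕ) : ℝ) ≤ cpT u N (2 * δ + 2 * (1 / 2 : ℝ) ^ K) := by
      exact_mod_cast h2
    rw [Nat.cast_sub h3] at h4
    push_cast at h4
    have h5 : (1 : ℝ) ≤ A.card := by exact_mod_cast h0
    have h6 : (A.card : ℝ) - 1 ≤ Real.sqrt (cpT u N (2 * δ + 2 * (1 / 2 : ℝ) ^ K)) := by
      apply Real.le_sqrt_of_sq_le
      nlinarith
    linarith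

lemma perturb_core (u y : ℕ → UnitAddCircle) (hy : ∀ n, ‖y n - u n‖ ≤ (1 / 2 : ℝ) ^ n)
    (N K : ℕ) (δ : ℝ) :
    (cpT y N δ : ℝ) ≤ cpT u N (δ + 2 * (1 / 2 : ℝ) ^ K) +
      2 * (K * (K + (1 + Real.sqrt (cpT u N (2 * δ + 2 * (1 / 2 : ℝ) ^ K))))) := by
  set S1 := (range N ×ˢ range N).filter
    (fun p => p.1 ≠ p.2 ∧ ‖u p.1 - u p.2‖ < δ + 2 * (1 / 2 : ℝ) ^ K) with hS1
  set S2 := (range N ×ˢ range N).filter (fun p => p.1 < K ∧ ‖y p.1 - y p.2‖ < δ) with hS2
  have hsub : (range N ×ˢ range N).filter (fun p => p.1 ≠ p.2 ∧ ‖y p.1 - y p.2‖ < δ) ⊆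
      S1 ∪ (S2 ∪ S2.image Prod.swap) := by
    rintro ⟨k, l⟩ hkl
    simp only [Finset.mem_filter, Finset.mem_product, Finset.mem_range] at hkl
    obtain ⟨⟨h1, h2⟩, h3, h4⟩ := hkl
    rw [Finset.mem_union, Finset.mem_union]
    by_cases hk : k < K
    · right; left
      simp only [hS2, Finset.mem_filter, Finset.mem_product, Finset.mem_range]
      exact ⟨⟨h1, h2⟩, hk, h4⟩
    · by_cases hl : l < K
      · right; right
        rw [Finset.mem_image]
        refine ⟨(l, k), ?_, rfl⟩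
        simp only [hS2, Finset.mem_filter, Finset.mem_product, Finset.mem_range]
        exact ⟨⟨h2, h1⟩, hl, by rw [norm_sub_rev]; exact h4⟩
      · left
        simp only [hS1, Finset.mem_filter, Finset.mem_product, Finset.mem_range]
        refine ⟨⟨h1, h2⟩, h3, ?_⟩
        rw [not_lt] at hk hl
        have e1 : ‖u k - y k‖ ≤ (1 / 2 : ℝ) ^ K := by
          rw [norm_sub_rev]
          exact (hy k).trans (pow_le_pow_of_le_one (by norm_num) (by norm_num) hk)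
        have e2 : ‖y l - u l‖ ≤ (1 / 2 : ℝ) ^ K :=
          (hy l).trans (pow_le_pow_of_le_one (by norm_num) (by norm_num) hl)
        have e3 : u k - u l = (u k - y k) + (y k - y l) + (y l - u l) := by abel
        rw [e3]
        calc ‖(u k - y k) + (y k - y l) + (y l - u l)‖
            ≤ ‖u k - y k‖ + ‖y k - y l‖ + ‖y l - u l‖ :=
              (norm_add_le _ _).trans (add_le_add (norm_add_le _ _) le_rfl)
          _ < δ + 2 * (1 / 2 : ℝ) ^ K := by linarith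
  have hS2card : (S2.card : ℝ) ≤
      K * (K + (1 + Real.sqrt (cpT u N (2 * δ + 2 * (1 / 2 : ℝ) ^ K)))) := by
    let Bk : ℕ → Finset ℕ := fun k =>
      range K ∪ (range N).filter (fun l => K ≤ l ∧ ‖y k - y l‖ < δ)
    have h1 : S2 ⊆ (range K).biUnion (fun k => (Bk k).image (fun l => (k, l))) := by
      rintro ⟨k, l⟩ hkl
      simp only [hS2, Finset.mem_filter, Finset.mem_product, Finset.mem_range] at hkl
      obtain ⟨⟨h1, h2⟩, h3, h4⟩ := hkl
      rw [Finset.mem_biUnion]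
      refine ⟨k, Finset.mem_range.2 h3, ?_⟩
      rw [Finset.mem_image]
      refine ⟨l, ?_, rfl⟩
      simp only [Bk, Finset.mem_union, Finset.mem_range, Finset.mem_filter]
      by_cases hl : l < K
      · left; exact hl
      · right; exact ⟨h2, by omega, h4⟩
    have h2 : S2.card ≤ ∑ k ∈ range K, (Bk k).card := by
      refine (Finset.card_le_card h1).trans (Finset.card_biUnion_le.trans ?_)
      exact Finset.sum_le_sum (fun k _ => Finset.card_image_le)
    have h3 : ∀ k ∈ range K, ((Bk k).card : ℝ) ≤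
        K + (1 + Real.sqrt (cpT u N (2 * δ + 2 * (1 / 2 : ℝ) ^ K))) := by
      intro k _
      have h4 : (Bk k).card ≤ K + ((range N).filter (fun l => K ≤ l ∧ ‖y k - y l‖ < δ)).card := by
        refine (Finset.card_union_le _ _).trans ?_
        rw [Finset.card_range]
      have h5 : ((Bk k).card : ℝ) ≤
          K + (((range N).filter (fun l => K ≤ l ∧ ‖y k - y l‖ < δ)).card : ℝ) := by
        exact_mod_cast h4
      linarith [card_near u y hy N K k δ]
    calc (S2.card : ℝ) ≤ ((∑ k ∈ range K, (Bk k).card : ℕ) : ℝ) := by exact_mod_cast h2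
      _ = ∑ k ∈ range K, ((Bk k).card : ℝ) := by push_cast; rfl
      _ ≤ ∑ k ∈ range K, (K + (1 + Real.sqrt (cpT u N (2 * δ + 2 * (1 / 2 : ℝ) ^ K)))) :=
          Finset.sum_le_sum h3
      _ = _ := by rw [Finset.sum_const, Finset.card_range, nsmul_eq_mul]
  have hc : cpT y N δ ≤ S1.card + (S2.card + S2.card) := by
    refine (Finset.card_le_card hsub).trans ((Finset.card_union_le _ _).trans ?_)
    refine add_le_add le_rfl ((Finset.card_union_le _ _).trans (add_le_add le_rfl ?_))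
    exact Finset.card_image_le
  have hc' : (cpT y N δ : ℝ) ≤ S1.card + (S2.card + S2.card) := by exact_mod_cast hc
  have hS1c : (S1.card : ℝ) = cpT u N (δ + 2 * (1 / 2 : ℝ) ^ K) := rfl
  rw [hS1c] at hc'
  linarith

/-- the cut-off `K N = 2 (log₂ N + 1)` -/
def KN (N : ℕ) : ℕ := 2 * (Nat.log 2 N + 1)

lemma KN_pow (N : ℕ) (hN : 0 < N) : (1 / 2 : ℝ) ^ (KN N) ≤ 1 / ((N : ℝ) * N) := by
  have h1 : N < 2 ^ (Nat.log 2 N + 1) := Nat.lt_pow_succ_log_self (by norm_num) N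
  have h2 : (N : ℝ) ≤ 2 ^ (Nat.log 2 N + 1) := by exact_mod_cast h1.le
  have hN' : (0 : ℝ) < N := by exact_mod_cast hN
  unfold KN
  rw [one_div_pow, two_mul, pow_add]
  apply one_div_le_one_div_of_le (by positivity)
  exact mul_le_mul h2 h2 hN'.le (by positivity)

lemma KN_sqrt : Tendsto (fun N : ℕ => (KN N : ℝ) / Real.sqrt N) atTop (𝓝 0) := by
  have h1 : Tendsto (fun x : ℝ => Real.log x / x ^ (1 / 2 : ℝ)) atTop (𝓝 0) :=
    (isLittleO_log_rpow_atTop (by norm_num)).tendsto_div_nhds_zero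
  have h2 : Tendsto (fun N : ℕ => Real.log N / (N : ℝ) ^ (1 / 2 : ℝ)) atTop (𝓝 0) :=
    h1.comp tendsto_natCast_atTop_atTop
  have h3 : Tendsto (fun N : ℕ => 1 / (N : ℝ) ^ (1 / 2 : ℝ)) atTop (𝓝 0) :=
    ((tendsto_rpow_atTop (by norm_num)).comp tendsto_natCast_atTop_atTop).const_div_atTop 1
  have h4 : Tendsto (fun N : ℕ => 2 / Real.log 2 * (Real.log N / (N : ℝ) ^ (1 / 2 : ℝ)) +
      2 * (1 / (N : ℝ) ^ (1 / 2 : ℝ))) atTop (𝓝 (2 / Real.log 2 * 0 + 2 * 0)) :=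
    (h2.const_mul _).add (h3.const_mul _)
  simp only [mul_zero, add_zero] at h4
  refine squeeze_zero' (Eventually.of_forall fun N => by positivity) ?_ h4
  filter_upwards [eventually_gt_atTop 0] with N hN
  have hN' : (0 : ℝ) < N := by exact_mod_cast hN
  rw [Real.sqrt_eq_rpow]
  have hl2 : 0 < Real.log 2 := Real.log_pos (by norm_num)
  have h5 : (Nat.log 2 N : ℝ) ≤ Real.log N / Real.log 2 := by
    rw [le_div_iff₀ hl2, ← Real.log_pow]
    apply Real.log_le_log (by positivity)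
    exact_mod_cast Nat.pow_log_le_self 2 hN.ne'
  have hp : 0 < (N : ℝ) ^ (1 / 2 : ℝ) := by positivity
  have h6 : (KN N : ℝ) ≤ 2 / Real.log 2 * Real.log N + 2 := by
    unfold KN
    push_cast
    calc 2 * ((Nat.log 2 N : ℝ) + 1) ≤ 2 * (Real.log N / Real.log 2 + 1) := by linarith
      _ = _ := by ring
  calc (KN N : ℝ) / (N : ℝ) ^ (1 / 2 : ℝ)
      ≤ (2 / Real.log 2 * Real.log N + 2) / (N : ℝ) ^ (1 / 2 : ℝ) := by gcongr
    _ = _ := by ring

/-- the error term of the perturbation lemma -/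
lemma pert_err (C : ℝ) (hC : 0 ≤ C) :
    Tendsto (fun N : ℕ => 4 * ((KN N : ℝ) / Real.sqrt N) ^ 2 +
      2 * Real.sqrt C * ((KN N : ℝ) / Real.sqrt N)) atTop (𝓝 0) := by
  have h1 := ((KN_sqrt.pow 2).const_mul 4).add (KN_sqrt.const_mul (2 * Real.sqrt C))
  simpa using h1

lemma pert_bound {N : ℕ} (hN : 0 < N) {C c : ℝ} (hC : 0 ≤ C) (hc : c ≤ C * N) :
    2 * ((KN N : ℝ) * (KN N + (1 + Real.sqrt c))) ≤
      (4 * ((KN N : ℝ) / Real.sqrt N) ^ 2 + 2 * Real.sqrt C * ((KN N : ℝ) / Real.sqrt N)) * N := by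
  have hN' : (0 : ℝ) < N := by exact_mod_cast hN
  have hs : 0 < Real.sqrt N := Real.sqrt_pos.2 hN'
  have hss : Real.sqrt N * Real.sqrt N = N := Real.mul_self_sqrt hN'.le
  have h1 : Real.sqrt c ≤ Real.sqrt C * Real.sqrt N := by
    rw [← Real.sqrt_mul hC]
    exact Real.sqrt_le_sqrt hc
  have hK1 : (1 : ℝ) ≤ KN N := by
    unfold KN; push_cast
    have : (0 : ℝ) ≤ (Nat.log 2 N : ℝ) := by positivity
    linarith
  have h2 : ((KN N : ℝ) / Real.sqrt N) ^ 2 * N = (KN N : ℝ) ^ 2 := by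
    rw [div_pow, Real.sq_sqrt hN'.le]
    field_simp
  have h3 : (KN N : ℝ) / Real.sqrt N * N = KN N * Real.sqrt N := by
    rw [div_mul_eq_mul_div, div_eq_iff hs.ne', mul_assoc, hss]
  calc 2 * ((KN N : ℝ) * (KN N + (1 + Real.sqrt c)))
      = 2 * (KN N : ℝ) ^ 2 + 2 * KN N * 1 + 2 * KN N * Real.sqrt c := by ring
    _ ≤ 2 * (KN N : ℝ) ^ 2 + 2 * KN N * KN N + 2 * KN N * (Real.sqrt C * Real.sqrt N) := by
        gcongr
    _ = 4 * (((KN N : ℝ) / Real.sqrt N) ^ 2 * N) +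
        2 * Real.sqrt C * ((KN N : ℝ) / Real.sqrt N * N) := by rw [h2, h3]; ring
    _ = _ := by ring

/-- one-sided comparison of two sequences that are exponentially close -/
lemma perturb_one_side (u y : ℕ → UnitAddCircle) (hy : ∀ n, ‖y n - u n‖ ≤ (1 / 2 : ℝ) ^ n)
    {s s' C : ℝ} (hs' : s < s') (hC : 0 ≤ C)
    (hlin : ∀ᶠ N : ℕ in atTop, (cpT u N ((2 * s' : ℝ) / N) : ℝ) ≤ C * N) :
    ∃ e : ℕ → ℝ, Tendsto e atTop (𝓝 0) ∧
      ∀ᶠ N : ℕ in atTop, (cpT y N (s / N) : ℝ) ≤ cpT u N (s' / N) + e N * N := by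
  refine ⟨_, pert_err C hC, ?_⟩
  have h1 : ∀ᶠ N : ℕ in atTop, (2 : ℝ) / N < s' - s := by
    have : Tendsto (fun N : ℕ => (2 : ℝ) / N) atTop (𝓝 0) :=
      tendsto_natCast_atTop_atTop.const_div_atTop 2
    exact (tendsto_order.1 this).2 _ (by linarith)
  filter_upwards [h1, hlin, eventually_gt_atTop 0] with N h2 h3 h4
  have hN' : (0 : ℝ) < N := by exact_mod_cast h4
  have h5 : 2 * (1 / 2 : ℝ) ^ (KN N) ≤ (s' - s) / N := by
    have h6 := KN_pow N h4
    rw [le_div_iff₀ hN']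
    calc 2 * (1 / 2 : ℝ) ^ (KN N) * N ≤ 2 * (1 / ((N : ℝ) * N)) * N := by gcongr
      _ = 2 / N := by field_simp
      _ ≤ s' - s := h2.le
  have hcore := perturb_core u y hy N (KN N) (s / N)
  have h6 : s / N + 2 * (1 / 2 : ℝ) ^ (KN N) ≤ s' / N := by
    calc s / N + 2 * (1 / 2 : ℝ) ^ (KN N) ≤ s / N + (s' - s) / N := by linarith
      _ = s' / N := by ring
  have h7 : 2 * (s / N) + 2 * (1 / 2 : ℝ) ^ (KN N) ≤ 2 * s' / N := by
    have h8 : 0 ≤ (1 / 2 : ℝ) ^ (KN N) := by positivity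
    calc 2 * (s / N) + 2 * (1 / 2 : ℝ) ^ (KN N)
        ≤ 2 * (s / N + 2 * (1 / 2 : ℝ) ^ (KN N)) := by linarith
      _ ≤ 2 * (s' / N) := by linarith
      _ = 2 * s' / N := by ring
  have h8 : (cpT u N (s / N + 2 * (1 / 2 : ℝ) ^ (KN N)) : ℝ) ≤ cpT u N (s' / N) := by
    exact_mod_cast cpT_mono u le_rfl h6
  have h9 : (cpT u N (2 * (s / N) + 2 * (1 / 2 : ℝ) ^ (KN N)) : ℝ) ≤ C * N := by
    refine le_trans ?_ h3
    exact_mod_cast cpT_mono u le_rfl h7
  have h10 := pert_bound h4 hC h9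
  linarith

/-- **Perturbation.** -/
lemma ppc_perturb {u y : ℕ → UnitAddCircle} (hu : PPCT u)
    (hy : ∀ n, ‖y n - u n‖ ≤ (1 / 2 : ℝ) ^ n) : PPCT y := by
  have hone : Tendsto (fun N : ℕ => (id N : ℝ) / N) atTop (𝓝 1) := by
    refine tendsto_const_nhds.congr' ?_
    filter_upwards [eventually_gt_atTop 0] with N hN
    have : (N : ℝ) ≠ 0 := by positivity
    simp [this]
  have hup : ∀ s : ℝ, 0 < s → ∀ s' : ℝ, s < s' → ∃ e : ℕ → ℝ, Tendsto e atTop (𝓝 0) ∧
      ∀ᶠ N : ℕ in atTop, (cpT y N (s / N) : ℝ) ≤ cpT u N (s' / N) + e N * N := by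
    intro s hs s' hss'
    have hs'0 : 0 < s' := hs.trans hss'
    exact perturb_one_side u y hy hss' (C := 2 * (2 * s') + 1) (by positivity)
      (cp_linear hu (by positivity))
  refine transfer u y id hone tendsto_id hu hup ?_
  intro s hs s' hs'0 hs's
  -- linear bound for y
  have hylin : ∀ᶠ N : ℕ in atTop, (cpT y N ((2 * s : ℝ) / N) : ℝ) ≤ (6 * s + 2) * N := by
    obtain ⟨e, he, hle⟩ := hup (2 * s) (by positivity) (3 * s) (by linarith)
    have h1 := (tendsto_order.1 he).2 1 (by norm_num)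
    filter_upwards [hle, h1, cp_linear hu (show 0 < 3 * s by positivity)] with N h2 h3 h4
    have hN : (0 : ℝ) ≤ N := by positivity
    have : e N * N ≤ 1 * N := mul_le_mul_of_nonneg_right h3.le hN
    linarith
  exact perturb_one_side y u (fun n => by rw [norm_sub_rev]; exact hy n) hs's
    (C := 6 * s + 2) (by positivity) hylin

end Pool.Agent.H91.PPCBlocks
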