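import Mathlib
import Pool.Agent.H91.PPCBlocks

/-!
# Inserting separated blocks into a sequence with Poissonian pair correlations
-/

set_option autoImplicit false

namespace Pool.Agent.H91.PPCInsert

open Filter Topology Finset Pool.Agent.H91.PPCExist Pool.Agent.H91.PPCBlocks

section Insert

variable (x : ℕ → UnitAddCircle) (P : ℕ → Prop) [DecidablePred P]

/-- indices below `N` of structured type in dyadic block `j` -/
def Bl (j N : ℕ) : Finset ℕ := (range N).filter (fun k => P k ∧ Nat.log 2 k = j)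

/-- indices below `N` not of structured type -/
def Rs (N : ℕ) : Finset ℕ := (range N).filter (fun k => ¬ P k)

/-- the subsequence of the non-structured terms -/
noncomputable def sub (i : ℕ) : UnitAddCircle := x (Nat.nth (fun n => ¬ P n) i)

lemma cpT_sub (hinf : {n | ¬ P n}.Infinite) (N : ℕ) (δ : ℝ) :
    cpT (sub x P) (Nat.count (fun n => ¬ P n) N) δ =
      ((Rs P N ×ˢ Rs P N).filter (fun p => p.1 ≠ p.2 ∧ ‖x p.1 - x p.2‖ < δ)).card := by
  unfold cpT
  refine Finset.card_nbij' (fun p => (Nat.nth (fun n => ¬ P n) p.1, Nat.nth (fun n => ¬ P n) p.2))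
    (fun p => (Nat.count (fun n => ¬ P n) p.1, Nat.count (fun n => ¬ P n) p.2)) ?_ ?_ ?_ ?_
  · rintro ⟨i, j⟩ h
    simp only [Finset.coe_filter, Finset.mem_product, Finset.mem_range, Set.mem_ofPred_eq, Rs,
      Finset.mem_filter] at h ⊢
    obtain ⟨⟨h1, h2⟩, h3, h4⟩ := h
    refine ⟨⟨⟨Nat.nth_lt_of_lt_count h1, Nat.nth_mem_of_infinite hinf i⟩,
      ⟨Nat.nth_lt_of_lt_count h2, Nat.nth_mem_of_infinite hinf j⟩⟩, ?_, h4⟩
    exact fun h => h3 (Nat.nth_injective hinf h)
  · rintro ⟨k, l⟩ h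
    simp only [Finset.coe_filter, Finset.mem_product, Finset.mem_range, Set.mem_ofPred_eq, Rs,
      Finset.mem_filter] at h ⊢
    obtain ⟨⟨⟨h1, h2⟩, ⟨h3, h4⟩⟩, h5, h6⟩ := h
    have e1 : Nat.nth (fun n => ¬ P n) (Nat.count (fun n => ¬ P n) k) = k := Nat.nth_count h2
    have e2 : Nat.nth (fun n => ¬ P n) (Nat.count (fun n => ¬ P n) l) = l := Nat.nth_count h4
    refine ⟨⟨Nat.count_strict_mono h2 h1, Nat.count_strict_mono h4 h3⟩, ?_, ?_⟩
    · intro h
      apply h5
      rw [← e1, ← e2, h]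
    · unfold sub
      rw [e1, e2]
      exact h6
  · rintro ⟨i, j⟩ h
    simp only [Prod.mk.injEq]
    exact ⟨Nat.count_nth_of_infinite hinf i, Nat.count_nth_of_infinite hinf j⟩
  · rintro ⟨k, l⟩ h
    simp only [Finset.coe_filter, Finset.mem_product, Set.mem_ofPred_eq, Rs,
      Finset.mem_filter] at h
    simp only [Prod.mk.injEq]
    exact ⟨Nat.nth_count h.1.1.2, Nat.nth_count h.1.2.2⟩

/-- close pairs whose first index is structured -/
noncomputable def bad (N : ℕ) (δ : ℝ) : Finset (ℕ × ℕ) :=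
  (range N ×ˢ range N).filter (fun p => P p.1 ∧ p.1 ≠ p.2 ∧ ‖x p.1 - x p.2‖ < δ)

lemma cpT_le_sub_add_bad (hinf : {n | ¬ P n}.Infinite) (N : ℕ) (δ : ℝ) :
    cpT x N δ ≤ cpT (sub x P) (Nat.count (fun n => ¬ P n) N) δ + 2 * (bad x P N δ).card := by
  rw [cpT_sub x P hinf]
  have h1 : (range N ×ˢ range N).filter (fun p => p.1 ≠ p.2 ∧ ‖x p.1 - x p.2‖ < δ) ⊆
      (Rs P N ×ˢ Rs P N).filter (fun p => p.1 ≠ p.2 ∧ ‖x p.1 - x p.2‖ < δ) ∪
        (bad x P N δ ∪ (bad x P N δ).image Prod.swap) := by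
    rintro ⟨k, l⟩ h
    simp only [Finset.mem_filter, Finset.mem_product, Finset.mem_range] at h
    obtain ⟨⟨h1, h2⟩, h3, h4⟩ := h
    rw [Finset.mem_union, Finset.mem_union]
    by_cases hk : P k
    · right; left
      simp only [bad, Finset.mem_filter, Finset.mem_product, Finset.mem_range]
      exact ⟨⟨h1, h2⟩, hk, h3, h4⟩
    · by_cases hl : P l
      · right; right
        rw [Finset.mem_image]
        refine ⟨(l, k), ?_, rfl⟩
        simp only [bad, Finset.mem_filter, Finset.mem_product, Finset.mem_range]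
        exact ⟨⟨h2, h1⟩, hl, fun h => h3 h.symm, by rw [norm_sub_rev]; exact h4⟩
      · left
        simp only [Rs, Finset.mem_filter, Finset.mem_product, Finset.mem_range]
        exact ⟨⟨⟨h1, hk⟩, ⟨h2, hl⟩⟩, h3, h4⟩
  unfold cpT
  refine (Finset.card_le_card h1).trans ((Finset.card_union_le _ _).trans ?_)
  have h2 := Finset.card_union_le (bad x P N δ) ((bad x P N δ).image Prod.swap)
  have h3 : ((bad x P N δ).image Prod.swap).card ≤ (bad x P N δ).card := Finset.card_image_le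
  omega

lemma sub_le_cpT (hinf : {n | ¬ P n}.Infinite) (N : ℕ) (δ : ℝ) :
    cpT (sub x P) (Nat.count (fun n => ¬ P n) N) δ ≤ cpT x N δ := by
  rw [cpT_sub x P hinf]
  unfold cpT
  apply Finset.card_le_card
  rintro ⟨k, l⟩ h
  simp only [Rs, Finset.mem_filter, Finset.mem_product, Finset.mem_range] at h ⊢
  exact ⟨⟨h.1.1.1, h.1.2.1⟩, h.2⟩

/-- separated set against an arbitrary set: Cauchy-Schwarz -/
lemma sep_card (B R : Finset ℕ) (δ : ℝ)
    (hsep : ∀ k ∈ B, ∀ k' ∈ B, k ≠ k' → 2 * δ ≤ ‖x k - x k'‖) :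
    (((B ×ˢ R).filter (fun p => ‖x p.1 - x p.2‖ < δ)).card : ℝ) ≤
      Real.sqrt B.card *
        Real.sqrt (((R ×ˢ R).filter (fun p => ‖x p.1 - x p.2‖ < 2 * δ)).card) := by
  classical
  let V : ℕ → Finset ℕ := fun k => R.filter (fun l => ‖x k - x l‖ < δ)
  have h1 : ((B ×ˢ R).filter (fun p => ‖x p.1 - x p.2‖ < δ)).card = ∑ k ∈ B, (V k).card := by
    rw [Finset.card_filter, Finset.sum_product]
    apply Finset.sum_congr rfl
    intro k _
    rw [Finset.card_filter]
  have h2 : ∑ k ∈ B, (V k).card ^ 2 ≤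
      ((R ×ˢ R).filter (fun p => ‖x p.1 - x p.2‖ < 2 * δ)).card := by
    have h3 : ∑ k ∈ B, (V k).card ^ 2 = (B.biUnion (fun k => V k ×ˢ V k)).card := by
      rw [Finset.card_biUnion]
      · apply Finset.sum_congr rfl
        intro k _
        rw [Finset.card_product, pow_two]
      · intro k hk k' hk' hkk'
        rw [Function.onFun, Finset.disjoint_left]
        rintro ⟨l, l'⟩ h4 h5
        simp only [V, Finset.mem_product, Finset.mem_filter] at h4 h5
        have h6 := hsep k hk k' hk' hkk'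
        have h7 : ‖x k - x k'‖ ≤ ‖x k - x l‖ + ‖x k' - x l‖ := by
          have : x k - x k' = (x k - x l) - (x k' - x l) := by abel
          rw [this]
          exact norm_sub_le _ _
        linarith [h4.1.2, h5.1.2]
    rw [h3]
    apply Finset.card_le_card
    rintro ⟨l, l'⟩ h4
    simp only [V, Finset.mem_biUnion, Finset.mem_product, Finset.mem_filter] at h4 ⊢
    obtain ⟨k, -, ⟨h5, h6⟩, ⟨h7, h8⟩⟩ := h4
    refine ⟨⟨h5, h7⟩, ?_⟩
    have : x l - x l' = (x k - x l') - (x k - x l) := by abel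
    rw [this]
    calc ‖(x k - x l') - (x k - x l)‖ ≤ ‖x k - x l'‖ + ‖x k - x l‖ := norm_sub_le _ _
      _ < 2 * δ := by linarith
  have h3 : ((∑ k ∈ B, (V k).card : ℕ) : ℝ) ^ 2 ≤
      B.card * (((R ×ˢ R).filter (fun p => ‖x p.1 - x p.2‖ < 2 * δ)).card : ℝ) := by
    have h4 : (∑ k ∈ B, ((V k).card : ℝ)) ^ 2 ≤ B.card * ∑ k ∈ B, ((V k).card : ℝ) ^ 2 :=
      sq_sum_le_card_mul_sum_sq
    have h5 : (∑ k ∈ B, ((V k).card : ℝ) ^ 2) ≤
        (((R ×ˢ R).filter (fun p => ‖x p.1 - x p.2‖ < 2 * δ)).card : ℝ) := by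
      exact_mod_cast h2
    push_cast
    exact h4.trans (mul_le_mul_of_nonneg_left h5 (by positivity))
  rw [h1, ← Real.sqrt_mul (by positivity)]
  exact Real.le_sqrt_of_sq_le h3

/-- two separated sets -/
lemma sep_sep (B B' : Finset ℕ) (δ : ℝ)
    (hsep : ∀ k ∈ B', ∀ k' ∈ B', k ≠ k' → 2 * δ ≤ ‖x k - x k'‖) :
    ((B ×ˢ B').filter (fun p => ‖x p.1 - x p.2‖ < δ)).card ≤ B.card := by
  apply Finset.card_le_card_of_injOn Prod.fst
  · rintro ⟨k, l⟩ h
    simp only [Finset.coe_filter, Finset.mem_product, Set.mem_ofPred_eq] at h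
    exact h.1.1
  · rintro ⟨k, l⟩ h ⟨k', l'⟩ h' hkk'
    simp only [Finset.coe_filter, Finset.mem_product, Set.mem_ofPred_eq] at h h' hkk'
    subst hkk'
    rw [Prod.mk.injEq]
    refine ⟨rfl, ?_⟩
    by_contra hne
    have h1 := hsep l h.1.2 l' h'.1.2 hne
    have h7 : ‖x l - x l'‖ ≤ ‖x k - x l'‖ + ‖x k - x l‖ := by
      have : x l - x l' = (x k - x l') - (x k - x l) := by abel
      rw [this]
      exact norm_sub_le _ _
    linarith [h.2, h'.2]

lemma card_filter_swap (B B' : Finset ℕ) (δ : ℝ) :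
    ((B ×ˢ B').filter (fun p => ‖x p.1 - x p.2‖ < δ)).card =
      ((B' ×ˢ B).filter (fun p => ‖x p.1 - x p.2‖ < δ)).card := by
  refine Finset.card_nbij' Prod.swap Prod.swap ?_ ?_ ?_ ?_
  · rintro ⟨k, l⟩ h
    simp only [Finset.coe_filter, Finset.mem_product, Set.mem_ofPred_eq, Prod.swap_prod_mk] at h ⊢
    exact ⟨⟨h.1.2, h.1.1⟩, by rw [norm_sub_rev]; exact h.2⟩
  · rintro ⟨k, l⟩ h
    simp only [Finset.coe_filter, Finset.mem_product, Set.mem_ofPred_eq, Prod.swap_prod_mk] at h ⊢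
    exact ⟨⟨h.1.2, h.1.1⟩, by rw [norm_sub_rev]; exact h.2⟩
  · rintro ⟨k, l⟩ _; rfl
  · rintro ⟨k, l⟩ _; rfl

lemma sep_sep_sqrt (B B' : Finset ℕ) (δ : ℝ)
    (hsep : ∀ k ∈ B, ∀ k' ∈ B, k ≠ k' → 2 * δ ≤ ‖x k - x k'‖)
    (hsep' : ∀ k ∈ B', ∀ k' ∈ B', k ≠ k' → 2 * δ ≤ ‖x k - x k'‖) :
    (((B ×ˢ B').filter (fun p => ‖x p.1 - x p.2‖ < δ)).card : ℝ) ≤
      Real.sqrt B.card * Real.sqrt B'.card := by
  have h1 := sep_sep x B B' δ hsep'
  have h2 := sep_sep x B' B δ hsep
  rw [card_filter_swap x B' B] at h2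
  rw [← Real.sqrt_mul (by positivity)]
  apply Real.le_sqrt_of_sq_le
  rw [pow_two]
  apply mul_le_mul (by exact_mod_cast h1) (by exact_mod_cast h2) (by positivity) (by positivity)

/-- the bound for the number of bad pairs -/
lemma bad_card (M : ℕ → ℕ) (hM : ∀ j N, (Bl P j N).card ≤ M j) (N : ℕ) (δ : ℝ)
    (hsep : ∀ k < N, ∀ k' < N, P k → P k' → Nat.log 2 k = Nat.log 2 k' → k ≠ k' →
      2 * δ ≤ ‖x k - x k'‖) :
    ((bad x P N δ).card : ℝ) ≤
      (∑ j ∈ range (Nat.log 2 N + 1), Real.sqrt (M j)) *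
        Real.sqrt (((Rs P N ×ˢ Rs P N).filter (fun p => ‖x p.1 - x p.2‖ < 2 * δ)).card) +
      (∑ j ∈ range (Nat.log 2 N + 1), Real.sqrt (M j)) ^ 2 := by
  classical
  have hs : ∀ j, ∀ k ∈ Bl P j N, ∀ k' ∈ Bl P j N, k ≠ k' → 2 * δ ≤ ‖x k - x k'‖ := by
    intro j k hk k' hk' hne
    simp only [Bl, Finset.mem_filter, Finset.mem_range] at hk hk'
    exact hsep k hk.1 k' hk'.1 hk.2.1 hk'.2.1 (by rw [hk.2.2, hk'.2.2]) hne
  set L := Nat.log 2 N + 1 with hL
  have hsub : bad x P N δ ⊆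
      ((range L).biUnion (fun j => (Bl P j N ×ˢ Rs P N).filter (fun p => ‖x p.1 - x p.2‖ < δ))) ∪
      ((range L).biUnion (fun j => (range L).biUnion (fun i =>
        (Bl P j N ×ˢ Bl P i N).filter (fun p => ‖x p.1 - x p.2‖ < δ)))) := by
    rintro ⟨k, l⟩ h
    simp only [bad, Finset.mem_filter, Finset.mem_product, Finset.mem_range] at h
    obtain ⟨⟨h1, h2⟩, h3, h4, h5⟩ := h
    have hk : Nat.log 2 k < L := Nat.lt_succ_of_le (Nat.log_mono_right h1.le)
    have hl : Nat.log 2 l < L := Nat.lt_succ_of_le (Nat.log_mono_right h2.le)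
    rw [Finset.mem_union]
    by_cases hPl : P l
    · right
      simp only [Finset.mem_biUnion, Finset.mem_range, Finset.mem_filter, Finset.mem_product, Bl]
      exact ⟨Nat.log 2 k, hk, Nat.log 2 l, hl, ⟨⟨h1, h3, rfl⟩, ⟨h2, hPl, rfl⟩⟩, h5⟩
    · left
      simp only [Finset.mem_biUnion, Finset.mem_range, Finset.mem_filter, Finset.mem_product, Bl,
        Rs]
      exact ⟨Nat.log 2 k, hk, ⟨⟨h1, h3, rfl⟩, ⟨h2, hPl⟩⟩, h5⟩
  have h1 : ((bad x P N δ).card : ℝ) ≤
      ∑ j ∈ range L, (((Bl P j N ×ˢ Rs P N).filter (fun p => ‖x p.1 - x p.2‖ < δ)).card : ℝ) +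
      ∑ j ∈ range L, ∑ i ∈ range L,
        (((Bl P j N ×ˢ Bl P i N).filter (fun p => ‖x p.1 - x p.2‖ < δ)).card : ℝ) := by
    have h2 := (Finset.card_le_card hsub).trans (Finset.card_union_le _ _)
    have h3 := Finset.card_biUnion_le (s := range L)
      (t := fun j => (Bl P j N ×ˢ Rs P N).filter (fun p => ‖x p.1 - x p.2‖ < δ))
    have h4 : ((range L).biUnion (fun j => (range L).biUnion (fun i =>
        (Bl P j N ×ˢ Bl P i N).filter (fun p => ‖x p.1 - x p.2‖ < δ)))).card ≤
        ∑ j ∈ range L, ∑ i ∈ range L,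
          ((Bl P j N ×ˢ Bl P i N).filter (fun p => ‖x p.1 - x p.2‖ < δ)).card :=
      Finset.card_biUnion_le.trans (Finset.sum_le_sum (fun j _ => Finset.card_biUnion_le))
    exact_mod_cast h2.trans (add_le_add h3 h4)
  refine h1.trans (add_le_add ?_ ?_)
  · rw [Finset.sum_mul]
    apply Finset.sum_le_sum
    intro j _
    refine (sep_card x (Bl P j N) (Rs P N) δ (hs j)).trans ?_
    apply mul_le_mul_of_nonneg_right _ (Real.sqrt_nonneg _)
    apply Real.sqrt_le_sqrt
    exact_mod_cast hM j N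
  · rw [pow_two, Finset.sum_mul_sum]
    apply Finset.sum_le_sum
    intro j _
    apply Finset.sum_le_sum
    intro i _
    refine (sep_sep_sqrt x _ _ δ (hs j) (hs i)).trans ?_
    apply mul_le_mul _ _ (Real.sqrt_nonneg _) (Real.sqrt_nonneg _)
    · apply Real.sqrt_le_sqrt
      exact_mod_cast hM j N
    · apply Real.sqrt_le_sqrt
      exact_mod_cast hM i N

lemma count_lower (M : ℕ → ℕ) (hM : ∀ j N, (Bl P j N).card ≤ M j) (N : ℕ) :
    (N : ℝ) ≤ Nat.count (fun n => ¬ P n) N +
      (∑ j ∈ range (Nat.log 2 N + 1), Real.sqrt (M j)) ^ 2 := by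
  have h1 : N = ((range N).filter (fun n => ¬ P n)).card + ((range N).filter P).card := by
    rw [add_comm, Finset.card_filter_add_card_filter_not, Finset.card_range]
  have h2 : ((range N).filter P).card ≤ ∑ j ∈ range (Nat.log 2 N + 1), M j := by
    have h3 : (range N).filter P ⊆ (range (Nat.log 2 N + 1)).biUnion (fun j => Bl P j N) := by
      intro k hk
      simp only [Finset.mem_filter, Finset.mem_range, Finset.mem_biUnion, Bl] at hk ⊢
      exact ⟨Nat.log 2 k, Nat.lt_succ_of_le (Nat.log_mono_right hk.1.le), hk.1, hk.2, rfl⟩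
    exact (Finset.card_le_card h3).trans (Finset.card_biUnion_le.trans
      (Finset.sum_le_sum (fun j _ => hM j N)))
  have h3 : ((∑ j ∈ range (Nat.log 2 N + 1), M j : ℕ) : ℝ) ≤
      (∑ j ∈ range (Nat.log 2 N + 1), Real.sqrt (M j)) ^ 2 := by
    push_cast
    rw [pow_two, Finset.sum_mul]
    apply Finset.sum_le_sum
    intro j hj
    calc (M j : ℝ) = Real.sqrt (M j) * Real.sqrt (M j) := (Real.mul_self_sqrt (by positivity)).symm
      _ ≤ Real.sqrt (M j) * ∑ i ∈ range (Nat.log 2 N + 1), Real.sqrt (M i) := by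
          apply mul_le_mul_of_nonneg_left _ (Real.sqrt_nonneg _)
          exact Finset.single_le_sum (f := fun i => Real.sqrt (M i))
            (fun i _ => Real.sqrt_nonneg _) hj
  have h4 : Nat.count (fun n => ¬ P n) N = ((range N).filter (fun n => ¬ P n)).card :=
    Nat.count_eq_card_filter_range _ _
  have h5 : (N : ℝ) = (((range N).filter (fun n => ¬ P n)).card : ℝ) +
      (((range N).filter P).card : ℝ) := by exact_mod_cast h1
  have h6 : (((range N).filter P).card : ℝ) ≤ ((∑ j ∈ range (Nat.log 2 N + 1), M j : ℕ) : ℝ) := by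
    exact_mod_cast h2
  rw [h4]
  linarith

/-- **Insertion lemma.** -/
theorem ppc_insert (M : ℕ → ℕ) (hM : ∀ j N, (Bl P j N).card ≤ M j)
    (hσ : Tendsto (fun N : ℕ => (∑ j ∈ range (Nat.log 2 N + 1), Real.sqrt (M j)) / Real.sqrt N)
      atTop (𝓝 0))
    (hsep : ∀ s : ℝ, 0 < s → ∀ᶠ N : ℕ in atTop, ∀ k < N, ∀ k' < N, P k → P k' →
      Nat.log 2 k = Nat.log 2 k' → k ≠ k' → s / N ≤ ‖x k - x k'‖)
    (hinf : {n | ¬ P n}.Infinite) (hy : PPCT (sub x P)) : PPCT x := by
  set σ : ℕ → ℝ := fun N => ∑ j ∈ range (Nat.log 2 N + 1), Real.sqrt (M j) with hσdef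
  set φ : ℕ → ℕ := fun N => Nat.count (fun n => ¬ P n) N with hφdef
  have hφle : ∀ N, φ N ≤ N := fun N => Nat.count_le _
  have hratio : Tendsto (fun N : ℕ => (φ N : ℝ) / N) atTop (𝓝 1) := by
    have h1 : Tendsto (fun N : ℕ => 1 - (σ N / Real.sqrt N) ^ 2) atTop (𝓝 (1 - 0 ^ 2)) :=
      tendsto_const_nhds.sub (hσ.pow 2)
    norm_num at h1
    refine tendsto_of_tendsto_of_tendsto_of_le_of_le' h1 tendsto_const_nhds ?_ ?_
    · filter_upwards [eventually_gt_atTop 0] with N hN
      have hN' : (0 : ℝ) < N := by exact_mod_cast hN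
      have h2 := count_lower P M hM N
      rw [le_div_iff₀ hN', sub_mul, one_mul, div_pow, Real.sq_sqrt hN'.le,
        div_mul_cancel₀ _ hN'.ne']
      simp only [hφdef]
      linarith
    · filter_upwards [eventually_gt_atTop 0] with N hN
      have hN' : (0 : ℝ) < N := by exact_mod_cast hN
      rw [div_le_one hN']
      exact_mod_cast hφle N
  have hφtop : Tendsto φ atTop atTop := by
    have h1 : Tendsto (fun N : ℕ => (φ N : ℝ) / N * N) atTop atTop :=
      hratio.pos_mul_atTop one_pos tendsto_natCast_atTop_atTop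
    have h2 : Tendsto (fun N : ℕ => (φ N : ℝ)) atTop atTop := by
      refine h1.congr' ?_
      filter_upwards [eventually_gt_atTop 0] with N hN
      have hN' : (N : ℝ) ≠ 0 := by positivity
      field_simp
    exact tendsto_natCast_atTop_iff.1 h2
  refine transfer (sub x P) x φ hratio hφtop hy ?_ ?_
  · intro s hs s' hss'
    refine ⟨fun N => 2 * (Real.sqrt (4 * s + 2) * (σ N / Real.sqrt N) + (σ N / Real.sqrt N) ^ 2),
      ?_, ?_⟩
    · have h1 := ((hσ.const_mul (Real.sqrt (4 * s + 2))).add (hσ.pow 2)).const_mul 2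
      simpa using h1
    · have hlin := hφtop.eventually (cp_linear hy (show 0 < 2 * s by positivity))
      filter_upwards [hsep (2 * s) (by positivity), hlin, eventually_gt_atTop 0,
        hφtop.eventually (eventually_gt_atTop 0)] with N h1 h2 h3 h4
      have hN' : (0 : ℝ) < N := by exact_mod_cast h3
      have hφpos : (0 : ℝ) < φ N := by exact_mod_cast h4
      have hφN : (φ N : ℝ) ≤ N := by exact_mod_cast hφle N
      have h5 := cpT_le_sub_add_bad x P hinf N (s / N)
      have h6 := bad_card x P M hM N (s / N) (by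
        intro k hk k' hk' a b c d
        have := h1 k hk k' hk' a b c d
        rw [mul_div_assoc] at this
        exact this)
      -- the number of pairs in R at distance < 2 s / N
      have hQ : (((Rs P N ×ˢ Rs P N).filter (fun p => ‖x p.1 - x p.2‖ < 2 * (s / N))).card : ℝ) ≤
          (4 * s + 2) * N := by
        have h7 : (Rs P N ×ˢ Rs P N).filter (fun p => ‖x p.1 - x p.2‖ < 2 * (s / N)) ⊆
            (Rs P N).image (fun k => (k, k)) ∪
            (Rs P N ×ˢ Rs P N).filter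
              (fun p => p.1 ≠ p.2 ∧ ‖x p.1 - x p.2‖ < 2 * (s / N)) := by
          rintro ⟨k, l⟩ h
          simp only [Finset.mem_filter, Finset.mem_product] at h
          rw [Finset.mem_union]
          by_cases hkl : k = l
          · left
            rw [Finset.mem_image]
            exact ⟨k, h.1.1, by rw [hkl]⟩
          · right
            simp only [Finset.mem_filter, Finset.mem_product]
            exact ⟨h.1, hkl, h.2⟩
        have h8 := (Finset.card_le_card h7).trans (Finset.card_union_le _ _)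
        rw [← cpT_sub x P hinf] at h8
        have h9 : ((Rs P N).image (fun k => (k, k))).card ≤ φ N := by
          refine Finset.card_image_le.trans ?_
          simp only [hφdef, Rs]
          rw [Nat.count_eq_card_filter_range]
        have h10 : cpT (sub x P) (φ N) (2 * (s / N)) ≤ cpT (sub x P) (φ N) (2 * s / φ N) := by
          apply cpT_mono _ le_rfl
          rw [← mul_div_assoc]
          apply div_le_div_of_nonneg_left (by positivity) hφpos hφN
        have h11 : (((Rs P N ×ˢ Rs P N).filter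
            (fun p => ‖x p.1 - x p.2‖ < 2 * (s / N))).card : ℝ) ≤
            φ N + cpT (sub x P) (φ N) (2 * s / φ N) := by
          exact_mod_cast h8.trans (add_le_add h9 h10)
        calc _ ≤ (φ N : ℝ) + (2 * (2 * s) + 1) * φ N := h11.trans (add_le_add le_rfl h2)
          _ = (4 * s + 2) * φ N := by ring
          _ ≤ (4 * s + 2) * N := mul_le_mul_of_nonneg_left hφN (by positivity)
      have hsq : 0 < Real.sqrt N := Real.sqrt_pos.2 hN'
      have hss : Real.sqrt N * Real.sqrt N = N := Real.mul_self_sqrt hN'.le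
      have hσ0 : 0 ≤ σ N := Finset.sum_nonneg (fun _ _ => Real.sqrt_nonneg _)
      have h12 : Real.sqrt (((Rs P N ×ˢ Rs P N).filter
          (fun p => ‖x p.1 - x p.2‖ < 2 * (s / N))).card) ≤
          Real.sqrt (4 * s + 2) * Real.sqrt N := by
        rw [← Real.sqrt_mul (by positivity)]
        exact Real.sqrt_le_sqrt hQ
      have h13 : ((bad x P N (s / N)).card : ℝ) ≤
          (Real.sqrt (4 * s + 2) * (σ N / Real.sqrt N) + (σ N / Real.sqrt N) ^ 2) * N := by
        calc ((bad x P N (s / N)).card : ℝ)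
            ≤ σ N * (Real.sqrt (4 * s + 2) * Real.sqrt N) + σ N ^ 2 :=
              h6.trans (add_le_add (mul_le_mul_of_nonneg_left h12 hσ0) le_rfl)
          _ = _ := by
              have e1 : σ N / Real.sqrt N * N = σ N * Real.sqrt N := by
                rw [div_mul_eq_mul_div, div_eq_iff hsq.ne', mul_assoc, hss]
              have e2 : (σ N / Real.sqrt N) ^ 2 * N = σ N ^ 2 := by
                rw [div_pow, Real.sq_sqrt hN'.le, div_mul_cancel₀ _ hN'.ne']
              rw [add_mul, e2, mul_assoc (Real.sqrt (4 * s + 2)), e1]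
              ring
      have h14 : cpT (sub x P) (φ N) (s / N) ≤ cpT (sub x P) (φ N) (s' / φ N) := by
        apply cpT_mono _ le_rfl
        rw [div_le_div_iff₀ hN' hφpos]
        nlinarith
      have h15 : (cpT x N (s / N) : ℝ) ≤ cpT (sub x P) (φ N) (s' / φ N) +
          2 * ((bad x P N (s / N)).card : ℝ) := by
        exact_mod_cast h5.trans (add_le_add h14 le_rfl)
      linarith
  · intro s hs s' hs'0 hs's
    refine ⟨fun _ => 0, tendsto_const_nhds, ?_⟩
    have h1 := (tendsto_order.1 hratio).1 (s' / s) ((div_lt_one hs).2 hs's)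
    filter_upwards [h1, eventually_gt_atTop 0, hφtop.eventually (eventually_gt_atTop 0)]
      with N h2 h3 h4
    have hN' : (0 : ℝ) < N := by exact_mod_cast h3
    have hφpos : (0 : ℝ) < φ N := by exact_mod_cast h4
    have h5 : s' / φ N ≤ s / N := by
      rw [div_lt_div_iff₀ hs hN'] at h2
      rw [div_le_div_iff₀ hφpos hN']
      linarith
    have h6 := sub_le_cpT x P hinf N (s / N)
    have h7 : cpT (sub x P) (φ N) (s' / φ N) ≤ cpT x N (s / N) :=
      (cpT_mono _ le_rfl h5).trans h6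
    have h8 : (cpT (sub x P) (φ N) (s' / φ N) : ℝ) ≤ cpT x N (s / N) := by exact_mod_cast h7
    simpa using h8

end Insert

/-! ### The growth condition -/

lemma sigma_lim (M τ : ℕ → ℕ) (hM : ∀ j, M j ≤ 2 ^ j / (τ j + 2)) (hτ : Tendsto τ atTop atTop) :
    Tendsto (fun N : ℕ => (∑ j ∈ range (Nat.log 2 N + 1), Real.sqrt (M j)) / Real.sqrt N)
      atTop (𝓝 0) := by
  have h2 : (0 : ℝ) < Real.sqrt 2 := Real.sqrt_pos.2 (by norm_num)
  have h21 : (1 : ℝ) < Real.sqrt 2 := Real.one_lt_sqrt_two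
  -- little o termwise
  have hlo : (fun j : ℕ => Real.sqrt (M j)) =o[atTop] (fun j : ℕ => (Real.sqrt 2) ^ j) := by
    rw [Asymptotics.isLittleO_iff_tendsto (fun j hj => by
      exfalso; exact (pow_pos h2 j).ne' hj)]
    have h3 : Tendsto (fun j : ℕ => 1 / Real.sqrt ((τ j : ℝ) + 2)) atTop (𝓝 0) := by
      have h4 : Tendsto (fun j : ℕ => (τ j : ℝ) + 2) atTop atTop :=
        tendsto_atTop_add_const_right _ _ (tendsto_natCast_atTop_atTop.comp hτ)
      exact (Real.tendsto_sqrt_atTop.comp h4).const_div_atTop 1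
    refine squeeze_zero (fun j => by positivity) (fun j => ?_) h3
    have h5 : (M j : ℝ) ≤ 2 ^ j / ((τ j : ℝ) + 2) := by
      have h6 : ((M j : ℕ) : ℝ) ≤ ((2 ^ j / (τ j + 2) : ℕ) : ℝ) := by exact_mod_cast hM j
      refine h6.trans ?_
      have := Nat.cast_div_le (α := ℝ) (m := 2 ^ j) (n := τ j + 2)
      push_cast at this
      exact this
    have h7 : Real.sqrt (M j) ≤ (Real.sqrt 2) ^ j / Real.sqrt ((τ j : ℝ) + 2) := by
      have e : (Real.sqrt 2) ^ j = Real.sqrt (2 ^ j) := by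
        rw [Real.sqrt_eq_rpow, Real.sqrt_eq_rpow, ← Real.rpow_natCast, ← Real.rpow_natCast,
          ← Real.rpow_mul (by norm_num), ← Real.rpow_mul (by norm_num), mul_comm]
      rw [e, ← Real.sqrt_div (by positivity)]
      exact Real.sqrt_le_sqrt h5
    rw [div_le_iff₀ (pow_pos h2 j)]
    calc Real.sqrt (M j) ≤ (Real.sqrt 2) ^ j / Real.sqrt ((τ j : ℝ) + 2) := h7
      _ = 1 / Real.sqrt ((τ j : ℝ) + 2) * (Real.sqrt 2) ^ j := by ring
  have hsumtop : Tendsto (fun n : ℕ => ∑ i ∈ range n, (Real.sqrt 2) ^ i) atTop atTop := by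
    refine tendsto_atTop_mono (fun n => ?_) tendsto_natCast_atTop_atTop
    calc (n : ℝ) = ∑ i ∈ range n, (1 : ℝ) := by simp
      _ ≤ ∑ i ∈ range n, (Real.sqrt 2) ^ i := Finset.sum_le_sum (fun i _ => one_le_pow₀ h21.le)
  have hsum := hlo.sum_range (fun j => by positivity) hsumtop
  have hO : (fun n : ℕ => ∑ i ∈ range n, (Real.sqrt 2) ^ i) =O[atTop]
      (fun n : ℕ => (Real.sqrt 2) ^ n) := by
    refine Asymptotics.IsBigO.of_bound (1 / (Real.sqrt 2 - 1)) (Eventually.of_forall fun n => ?_)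
    rw [Real.norm_of_nonneg (Finset.sum_nonneg (fun i _ => by positivity)),
      Real.norm_of_nonneg (by positivity), geom_sum_eq h21.ne']
    rw [one_div, inv_mul_eq_div]
    apply div_le_div_of_nonneg_right _ (by linarith)
    linarith
  have h3 := hsum.trans_isBigO hO
  have hlog : Tendsto (fun N : ℕ => Nat.log 2 N + 1) atTop atTop := by
    refine tendsto_atTop.2 fun b => ?_
    filter_upwards [eventually_ge_atTop (2 ^ b)] with N hN
    exact (Nat.le_log_of_pow_le (by norm_num) hN).trans (Nat.le_succ _)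
  have h4 := (h3.comp_tendsto hlog)
  have h5 : (fun N : ℕ => (Real.sqrt 2) ^ (Nat.log 2 N + 1)) =O[atTop]
      (fun N : ℕ => Real.sqrt N) := by
    refine Asymptotics.IsBigO.of_bound (Real.sqrt 2) ?_
    filter_upwards [eventually_gt_atTop 0] with N hN
    rw [Real.norm_of_nonneg (by positivity), Real.norm_of_nonneg (by positivity), pow_succ,
      mul_comm]
    apply mul_le_mul_of_nonneg_left _ h2.le
    have e : (Real.sqrt 2) ^ (Nat.log 2 N) = Real.sqrt (2 ^ (Nat.log 2 N)) := by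
      rw [Real.sqrt_eq_rpow, Real.sqrt_eq_rpow, ← Real.rpow_natCast, ← Real.rpow_natCast,
        ← Real.rpow_mul (by norm_num), ← Real.rpow_mul (by norm_num), mul_comm]
    rw [e]
    apply Real.sqrt_le_sqrt
    exact_mod_cast Nat.pow_log_le_self 2 hN.ne'
  have h6 := h4.trans_isBigO h5
  exact h6.tendsto_div_nhds_zero

end Pool.Agent.H91.PPCInsert
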